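import Mathlib

/-!
# Definitions for neighbourhoods of Janowski convex functions

All functions are total functions on `ℂ`; only their values on the open unit disc
`ball 0 1` matter.
-/

open Complex Metric Set

namespace Pool.Agent.Helper49.Janowski

/-- The class `𝒜` of normalised analytic functions on the unit disc. -/
def ClassA (f : ℂ → ℂ) : Prop :=
  DifferentiableOn ℂ f (ball 0 1) ∧ f 0 = 0 ∧ deriv f 0 = 1

/-- The class `S` of univalent members of `𝒜`. -/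
def ClassS : Set (ℂ → ℂ) := {f | ClassA f ∧ InjOn f (ball 0 1)}

/-- The class `St` of normalised starlike functions. -/
def ClassSt : Set (ℂ → ℂ) :=
  {f | ClassA f ∧ InjOn f (ball 0 1) ∧ StarConvex ℝ 0 (f '' ball 0 1)}

/-- The `k`-th Taylor coefficient of `f` at `0`. -/
noncomputable def coeff (f : ℂ → ℂ) (k : ℕ) : ℂ := iteratedDeriv k f 0 / (k.factorial : ℂ)

/-- The `δ`-neighbourhood of `f`. -/
def Nbhd (δ : ℝ) (f : ℂ → ℂ) : Set (ℂ → ℂ) :=
  {g | ClassA g ∧ Summable (fun k : ℕ => ((k : ℝ) + 2) * ‖coeff f (k + 2) - coeff g (k + 2)‖) ∧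
    ∑' k : ℕ, ((k : ℝ) + 2) * ‖coeff f (k + 2) - coeff g (k + 2)‖ ≤ δ}

/-- Subordination `F ≺ G` on the unit disc. -/
def Subordinate (F G : ℂ → ℂ) : Prop :=
  ∃ ω : ℂ → ℂ, DifferentiableOn ℂ ω (ball 0 1) ∧ MapsTo ω (ball 0 1) (ball 0 1) ∧ ω 0 = 0 ∧
    ∀ z ∈ ball (0:ℂ) 1, F z = G (ω z)

/-- The Janowski class `K[A,B]`. -/
def JanowskiK (A B : ℝ) : Set (ℂ → ℂ) :=
  {f | f ∈ ClassS ∧ Subordinate (fun z => 1 + z * deriv (deriv f) z / deriv f z)
    (fun z => (1 + (A:ℂ) * z) / (1 + (B:ℂ) * z))}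

/-- The radius `δ(A,B)`. -/
noncomputable def deltaAB (A B : ℝ) : ℝ :=
  if B = 0 then Real.exp (-A) else (1 - B) ^ ((A - B) / B)

end Pool.Agent.Helper49.Janowski
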