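import Pool.Agent.Helper49.Janowski.Defs

/-!
# Proofs for neighbourhoods of Janowski convex functions
-/

open Complex Metric Set Filter Topology

namespace Pool.Agent.Helper49.Janowski

/-- moving inwards -/
theorem inward {g : ℂ → ℂ} (hg : DifferentiableOn ℂ g (ball 0 1))
    {z0 : ℂ} (hz0 : z0 ∈ ball (0:ℂ) 1) (hre : 0 < (z0 * deriv g z0 / g z0).re)
    {U : Set ℂ} (hU : U ∈ 𝓝 z0) :
    ∀ᶠ t : ℝ in 𝓝[<] 1, ∃ ζ ∈ U, ‖ζ‖ < ‖z0‖ ∧ g ζ = t * g z0 := by
  have hA : AnalyticAt ℂ g z0 := hg.analyticAt (isOpen_ball.mem_nhds hz0)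
  have hs : HasStrictDerivAt g (deriv g z0) z0 := hA.hasStrictDerivAt
  have hd : deriv g z0 ≠ 0 := by
    intro h; rw [h] at hre; simp at hre
  have hw : g z0 ≠ 0 := by
    intro h; rw [h] at hre; simp at hre
  have hz : z0 ≠ 0 := by
    intro h; rw [h] at hre; simp at hre
  set h := hs.localInverse g (deriv g z0) z0 hd with hh
  have hh0 : h (g z0) = z0 := HasStrictFDerivAt.localInverse_apply_image ..
  have hhd : HasDerivAt h (deriv g z0)⁻¹ (g z0) := (hs.to_localInverse hd).hasDerivAt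
  have hri : ∀ᶠ y in 𝓝 (g z0), g (h y) = y := hs.eventually_right_inverse hd
  -- the path
  have hpath : HasDerivAt (fun t : ℝ => (t : ℂ) * g z0) (g z0) 1 := by
    have := (Complex.ofRealCLM.hasDerivAt (x := (1:ℝ))).mul_const (g z0)
    simpa using this
  have hpt : Tendsto (fun t : ℝ => (t : ℂ) * g z0) (𝓝 1) (𝓝 (g z0)) := by
    have := hpath.continuousAt.tendsto
    simpa using this
  have hζ : HasDerivAt (fun t : ℝ => h ((t : ℂ) * g z0)) ((deriv g z0)⁻¹ * g z0) 1 := by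
    have h1 : HasDerivAt h (deriv g z0)⁻¹ (((1:ℝ) : ℂ) * g z0) := by simpa using hhd
    exact HasDerivAt.comp (1:ℝ) h1 hpath
  have hn : HasDerivAt (fun t : ℝ => ‖h ((t : ℂ) * g z0)‖ ^ 2)
      (2 * inner ℝ (h (((1:ℝ) : ℂ) * g z0)) ((deriv g z0)⁻¹ * g z0)) 1 := hζ.norm_sq
  have hpos : 0 < 2 * inner ℝ (h (((1:ℝ) : ℂ) * g z0)) ((deriv g z0)⁻¹ * g z0) := by
    have e1 : h (((1:ℝ) : ℂ) * g z0) = z0 := by simpa using hh0
    rw [e1]
    have e2 : inner ℝ z0 ((deriv g z0)⁻¹ * g z0) = ((deriv g z0)⁻¹ * g z0 * (starRingEnd ℂ) z0).re := by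
      rw [Complex.inner]
    rw [e2]
    have e3 : (deriv g z0)⁻¹ * g z0 * (starRingEnd ℂ) z0
        = ((normSq z0 : ℝ) : ℂ) * (z0 * deriv g z0 / g z0)⁻¹ := by
      have : ((normSq z0 : ℝ) : ℂ) = z0 * (starRingEnd ℂ) z0 := by
        rw [Complex.mul_conj]
      rw [this]
      field_simp
    rw [e3, Complex.re_ofReal_mul, Complex.inv_re]
    have : 0 < normSq (z0 * deriv g z0 / g z0) := by
      rw [Complex.normSq_pos]
      exact div_ne_zero (mul_ne_zero hz hd) hw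
    have h3 : 0 < normSq z0 := Complex.normSq_pos.mpr hz
    positivity
  have hslope := hasDerivAt_iff_tendsto_slope.mp hn
  have hev := hslope.eventually (lt_mem_nhds hpos)
  have hev2 : ∀ᶠ t : ℝ in 𝓝[<] 1, 0 < slope (fun t : ℝ => ‖h ((t : ℂ) * g z0)‖ ^ 2) 1 t :=
    hev.filter_mono (nhdsWithin_mono _ (fun x hx => ne_of_lt hx))
  have hcont : Tendsto (fun t : ℝ => h ((t : ℂ) * g z0)) (𝓝 1) (𝓝 z0) := by
    have := hζ.continuousAt.tendsto
    simpa [hh0] using this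
  have hevU : ∀ᶠ t : ℝ in 𝓝[<] 1, h ((t : ℂ) * g z0) ∈ U :=
    (hcont.eventually hU).filter_mono nhdsWithin_le_nhds
  have hevr : ∀ᶠ t : ℝ in 𝓝[<] 1, g (h ((t : ℂ) * g z0)) = (t : ℂ) * g z0 :=
    (hpt.eventually hri).filter_mono nhdsWithin_le_nhds
  filter_upwards [hev2, hevU, hevr, self_mem_nhdsWithin] with t h1 h2 h3 h4
  refine ⟨_, h2, ?_, h3⟩
  have h4' : t < 1 := h4
  rw [slope_def_field] at h1
  have h5 : ‖h ((t : ℂ) * g z0)‖ ^ 2 - ‖h (((1:ℝ) : ℂ) * g z0)‖ ^ 2 < 0 := by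
    by_contra hcon
    push Not at hcon
    have : (‖h ((t : ℂ) * g z0)‖ ^ 2 - ‖h (((1:ℝ) : ℂ) * g z0)‖ ^ 2) / (t - 1) ≤ 0 :=
      div_nonpos_of_nonneg_of_nonpos hcon (by linarith)
    linarith
  have e1 : h (((1:ℝ) : ℂ) * g z0) = z0 := by simpa using hh0
  rw [e1] at h5
  nlinarith [norm_nonneg (h ((t : ℂ) * g z0)), norm_nonneg z0]

theorem injOn_of_re_pos {g : ℂ → ℂ} (hg : DifferentiableOn ℂ g (ball 0 1)) (h0 : g 0 = 0)
    (hd0 : deriv g 0 ≠ 0)
    (hre : ∀ z ∈ ball (0:ℂ) 1, z ≠ 0 → 0 < (z * deriv g z / g z).re) :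
    InjOn g (ball 0 1) := by
  have hdne : ∀ z ∈ ball (0:ℂ) 1, deriv g z ≠ 0 := by
    intro z hz h
    by_cases hz0 : z = 0
    · rw [hz0] at h; exact hd0 h
    · have := hre z hz hz0
      rw [h] at this; simp at this
  have hgne : ∀ z ∈ ball (0:ℂ) 1, z ≠ 0 → g z ≠ 0 := by
    intro z hz hz0 h
    have := hre z hz hz0
    rw [h] at this; simp at this
  intro z1 hz1 w1 hw1 hgz
  by_contra hne
  have hz1' : ‖z1‖ < 1 := by simpa using hz1
  have hw1' : ‖w1‖ < 1 := by simpa using hw1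
  set R := max ‖z1‖ ‖w1‖ with hR
  have hR1 : R < 1 := max_lt hz1' hw1'
  set K : Set (ℂ × ℂ) := {p | p.1 ∈ closedBall (0:ℂ) R ∧ p.2 ∈ closedBall (0:ℂ) R ∧
    g p.1 = g p.2 ∧ p.1 ≠ p.2} with hK
  have hsub : closedBall (0:ℂ) R ⊆ ball 0 1 := closedBall_subset_ball hR1
  have hcg : ContinuousOn g (ball 0 1) := hg.continuousOn
  have hclosed : IsClosed K := by
    rw [← closure_subset_iff_isClosed]
    rintro ⟨z, w⟩ hzw
    have hz : z ∈ closedBall (0:ℂ) R := by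
      have : (z, w) ∈ closure (Prod.fst ⁻¹' closedBall (0:ℂ) R) :=
        closure_mono (fun p hp => hp.1) hzw
      rwa [(isClosed_closedBall.preimage continuous_fst).closure_eq] at this
    have hw : w ∈ closedBall (0:ℂ) R := by
      have : (z, w) ∈ closure (Prod.snd ⁻¹' closedBall (0:ℂ) R) :=
        closure_mono (fun p hp => hp.2.1) hzw
      rwa [(isClosed_closedBall.preimage continuous_snd).closure_eq] at this
    have hzc : ContinuousAt g z := hcg.continuousAt (isOpen_ball.mem_nhds (hsub hz))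
    have hwc : ContinuousAt g w := hcg.continuousAt (isOpen_ball.mem_nhds (hsub hw))
    have heq : g z = g w := by
      have : (𝓝 (z, w) ⊓ 𝓟 K).NeBot := mem_closure_iff_clusterPt.mp hzw
      have t1 : Tendsto (fun p : ℂ × ℂ => g p.1) (𝓝 (z, w) ⊓ 𝓟 K) (𝓝 (g z)) :=
        (hzc.tendsto.comp (continuous_fst.tendsto (z, w))).mono_left inf_le_left
      have t2 : Tendsto (fun p : ℂ × ℂ => g p.2) (𝓝 (z, w) ⊓ 𝓟 K) (𝓝 (g w)) :=
        (hwc.tendsto.comp (continuous_snd.tendsto (z, w))).mono_left inf_le_left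
      refine tendsto_nhds_unique_of_eventuallyEq t1 t2 ?_
      have : K ∈ 𝓝 (z, w) ⊓ 𝓟 K := mem_inf_of_right (mem_principal_self K)
      filter_upwards [this] with p hp
      exact hp.2.2.1
    refine ⟨hz, hw, heq, ?_⟩
    intro hzweq
    simp only at hzweq
    subst hzweq
    -- local injectivity
    have hA : AnalyticAt ℂ g z := hg.analyticAt (isOpen_ball.mem_nhds (hsub hz))
    have hs : HasStrictDerivAt g (deriv g z) z := hA.hasStrictDerivAt
    have hli := hs.eventually_left_inverse (hdne z (hsub hz))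
    have hprod : ∀ᶠ p : ℂ × ℂ in 𝓝 (z, z),
        hs.localInverse g (deriv g z) z (hdne z (hsub hz)) (g p.1) = p.1 ∧
        hs.localInverse g (deriv g z) z (hdne z (hsub hz)) (g p.2) = p.2 := by
      rw [nhds_prod_eq]
      exact (hli.prod_inl _).and (hli.prod_inr _)
    obtain ⟨p, hp, hpK⟩ := mem_closure_iff_nhds.mp hzw _ hprod
    apply hpK.2.2.2
    rw [← hp.1, ← hp.2, hpK.2.2.1]
  have hcomp : IsCompact K := by
    refine IsCompact.of_isClosed_subset
      ((isCompact_closedBall (0:ℂ) R).prod (isCompact_closedBall (0:ℂ) R)) hclosed ?_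
    intro p hp
    exact ⟨hp.1, hp.2.1⟩
  have hKne : K.Nonempty := by
    refine ⟨(z1, w1), ?_, ?_, hgz, hne⟩
    · simp [hR]
    · simp [hR]
  obtain ⟨p, hpK, hpmin⟩ := hcomp.exists_isMinOn hKne
    (f := fun p : ℂ × ℂ => max ‖p.1‖ ‖p.2‖) (by fun_prop)
  obtain ⟨z, w⟩ := p
  obtain ⟨hz, hw, heq, hzw⟩ := hpK
  simp only at hz hw heq hzw
  have hz0 : z ≠ 0 := by
    intro h
    have hw0 : w ≠ 0 := fun h' => hzw (by rw [h, h'])
    apply hgne w (hsub hw) hw0
    rw [← heq, h, h0]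
  have hw0 : w ≠ 0 := by
    intro h
    apply hgne z (hsub hz) hz0
    rw [heq, h, h0]
  obtain ⟨U, V, hU, hV, hzU, hwV, hUV⟩ := t2_separation hzw
  have e1 := inward hg (hsub hz) (hre z (hsub hz) hz0) (hU.mem_nhds hzU)
  have e2 := inward hg (hsub hw) (hre w (hsub hw) hw0) (hV.mem_nhds hwV)
  obtain ⟨t, ⟨ζ, hζU, hζn, hζ⟩, ⟨η, hηV, hηn, hη⟩⟩ := (e1.and e2).exists
  have hmem : (ζ, η) ∈ K := by
    refine ⟨?_, ?_, ?_, ?_⟩
    · simp only [mem_closedBall, dist_zero_right] at hz ⊢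
      linarith
    · simp only [mem_closedBall, dist_zero_right] at hw ⊢
      linarith
    · simp only
      rw [hζ, hη, heq]
    · intro h
      simp only at h
      rw [← h] at hηV
      exact (Set.disjoint_left.mp hUV hζU hηV)
  have := hpmin hmem
  simp only [mem_ofPred_eq] at this
  have h3 : max ‖ζ‖ ‖η‖ < max ‖z‖ ‖w‖ := max_lt_max hζn hηn
  linarith

theorem starConvex_of_re_pos {g : ℂ → ℂ} (hg : DifferentiableOn ℂ g (ball 0 1)) (h0 : g 0 = 0)
    (hre : ∀ z ∈ ball (0:ℂ) 1, z ≠ 0 → 0 < (z * deriv g z / g z).re) :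
    StarConvex ℝ 0 (g '' ball 0 1) := by
  rw [starConvex_zero_iff]
  rintro y ⟨z1, hz1, rfl⟩ t0 ht0 ht1
  by_cases hz10 : z1 = 0
  · refine ⟨0, by simp, ?_⟩
    rw [hz10, h0]; simp
  by_cases ht00 : t0 = 0
  · refine ⟨0, by simp, ?_⟩
    rw [ht00, h0]; simp
  have ht0' : 0 < t0 := lt_of_le_of_ne ht0 (Ne.symm ht00)
  have hz1' : ‖z1‖ < 1 := by simpa using hz1
  have hsub : closedBall (0:ℂ) ‖z1‖ ⊆ ball 0 1 := closedBall_subset_ball hz1'
  have hg1 : g z1 ≠ 0 := by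
    intro h
    have := hre z1 hz1 hz10
    rw [h] at this; simp at this
  set C : Set (ℝ × ℂ) := {p | p.1 ∈ Icc t0 1 ∧ p.2 ∈ closedBall (0:ℂ) ‖z1‖ ∧
    g p.2 = (p.1 : ℂ) * g z1} with hC
  have hclosed : IsClosed C := by
    have hc1 : ContinuousOn (fun p : ℝ × ℂ => g p.2 - (p.1 : ℂ) * g z1)
        (Icc t0 1 ×ˢ closedBall (0:ℂ) ‖z1‖) := by
      apply ContinuousOn.sub
      · exact (hg.continuousOn.mono hsub).comp continuous_snd.continuousOn (fun p hp => hp.2)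
      · fun_prop
    have := hc1.preimage_isClosed_of_isClosed (isClosed_Icc.prod isClosed_closedBall)
      (isClosed_singleton (x := (0:ℂ)))
    convert this using 1
    ext p
    simp only [hC, mem_ofPred_eq, mem_inter_iff, mem_prod, mem_preimage, mem_singleton_iff,
      sub_eq_zero]
    tauto
  have hcomp : IsCompact C := by
    refine IsCompact.of_isClosed_subset
      ((isCompact_Icc (a := t0) (b := 1)).prod (isCompact_closedBall (0:ℂ) ‖z1‖)) hclosed ?_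
    intro p hp
    exact ⟨hp.1, hp.2.1⟩
  have hCne : C.Nonempty := ⟨(1, z1), ⟨ht1, le_refl 1⟩, by simp, by simp⟩
  obtain ⟨p, hpC, hpmin⟩ := hcomp.exists_isMinOn hCne
    (f := fun p : ℝ × ℂ => p.1) (by fun_prop)
  obtain ⟨t, z⟩ := p
  obtain ⟨⟨htl, htu⟩, hz, heq⟩ := hpC
  simp only at htl htu hz heq
  rcases eq_or_lt_of_le htl with h | h
  · refine ⟨z, hsub hz, ?_⟩
    rw [heq, ← h]
    simp
  · exfalso
    have htpos : 0 < t := lt_trans ht0' h
    have hz0 : z ≠ 0 := by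
      intro hz0
      rw [hz0, h0] at heq
      have : (t : ℂ) * g z1 ≠ 0 := mul_ne_zero (by exact_mod_cast htpos.ne') hg1
      exact this heq.symm
    have e1 := inward hg (hsub hz) (hre z (hsub hz) hz0) (Filter.univ_mem)
    have e2 : ∀ᶠ s : ℝ in 𝓝[<] 1, t0 / t < s := by
      have : t0 / t < 1 := (div_lt_one htpos).mpr h
      exact (lt_mem_nhds this).filter_mono nhdsWithin_le_nhds
    obtain ⟨s, ⟨⟨ζ, -, hζn, hζ⟩, hs⟩, hs1⟩ := ((e1.and e2).and self_mem_nhdsWithin).exists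
    have hs1' : s < 1 := hs1
    have hst : t0 < s * t := by
      rwa [div_lt_iff₀ htpos] at hs
    have hspos : 0 < s := lt_trans (div_pos ht0' htpos) hs
    have hmem : (s * t, ζ) ∈ C := by
      refine ⟨⟨hst.le, ?_⟩, ?_, ?_⟩
      · simp only
        nlinarith
      · simp only [mem_closedBall, dist_zero_right] at hz ⊢
        linarith
      · simp only
        rw [hζ, heq]
        push_cast
        ring
    have := hpmin hmem
    simp only [mem_ofPred_eq] at this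
    nlinarith



theorem alg {a b d1 d2 m1 m2 p1 p2 c ε : ℝ}
    (hab : a ^ 2 + b ^ 2 = 1) (hε : 0 < ε) (hc0 : 0 ≤ c) (hc1 : c ≤ 1) (hp : c ≤ p1)
    (hN : 0 < (a * d1 + b * m2) ^ 2 + (a * d2 - b * m1) ^ 2)
    (hmin : (a * d1 + b * m2) ^ 2 + (a * d2 - b * m1) ^ 2 ≤ d1 ^ 2 + d2 ^ 2)
    (hθ : (a * d1 + b * m2) * (-b * d1 + a * m2) + (a * d2 - b * m1) * (-b * d2 - a * m1) = 0)
    (hpos : 0 < d1 * m1 + d2 * m2)
    (him : (a * d1 + b * m2) * (a * p1 * d2 + (a * p2 - b) * d1)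
      - (a * d2 - b * m1) * (a * p1 * d1 - (a * p2 - b) * d2) = 0)
    (hre : (a * d1 + b * m2) * (a * p1 * d1 - (a * p2 - b) * d2)
      + (a * d2 - b * m1) * (a * p1 * d2 + (a * p2 - b) * d1)
      ≤ (c - ε) * ((a * d1 + b * m2) ^ 2 + (a * d2 - b * m1) ^ 2)) : False := by
  set h1 := a * d1 + b * m2 with hh1
  set h2 := a * d2 - b * m1 with hh2
  set N := h1 ^ 2 + h2 ^ 2 with hNdef
  set α := d1 * h1 + d2 * h2 with hα
  set β := d2 * h1 - d1 * h2 with hβ
  have hαN : α = a * N := by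
    have e2 : α * (a ^ 2 + b ^ 2) - a * N
      = -b * (h1 * (-b * d1 + a * m2) + h2 * (-b * d2 - a * m1)) := by
      rw [hα, hNdef, hh1, hh2]
      ring
    rw [hθ, hab] at e2
    linarith
  have hX1 : h1 * (a * p1 * d1 - (a * p2 - b) * d2) + h2 * (a * p1 * d2 + (a * p2 - b) * d1)
      = a * p1 * α - (a * p2 - b) * β := by rw [hα, hβ]; ring
  have hX2 : h1 * (a * p1 * d2 + (a * p2 - b) * d1) - h2 * (a * p1 * d1 - (a * p2 - b) * d2)
      = a * p1 * β + (a * p2 - b) * α := by rw [hα, hβ]; ring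
  rw [hX1] at hre
  rw [hX2] at him
  have hab2 : α ^ 2 + β ^ 2 = (d1 ^ 2 + d2 ^ 2) * N := by rw [hα, hβ, hNdef]; ring
  by_cases ha : a = 0
  · subst ha
    have hb : b ^ 2 = 1 := by linarith [hab]
    have hN2 : N = m1 ^ 2 + m2 ^ 2 := by
      rw [hNdef, hh1, hh2]
      have : (0 * d1 + b * m2) ^ 2 + (0 * d2 - b * m1) ^ 2 = b ^ 2 * (m1 ^ 2 + m2 ^ 2) := by ring
      rw [this, hb, one_mul]
    have hcross : m1 * d2 - m2 * d1 = 0 := by
      have : h1 * (-b * d1 + 0 * m2) + h2 * (-b * d2 - 0 * m1) = b ^ 2 * (m1 * d2 - m2 * d1) := by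
        rw [hh1, hh2]; ring
      rw [this, hb, one_mul] at hθ
      exact hθ
    have hX : 0 * p1 * α - (0 * p2 - b) * β = d1 * m1 + d2 * m2 := by
      have : 0 * p1 * α - (0 * p2 - b) * β = b ^ 2 * (d1 * m1 + d2 * m2) := by
        rw [hβ, hh1, hh2]; ring
      rw [this, hb, one_mul]
    rw [hX] at hre
    have hsq : (d1 * m1 + d2 * m2) ^ 2 = (d1 ^ 2 + d2 ^ 2) * (m1 ^ 2 + m2 ^ 2) := by
      have : (d1 * m1 + d2 * m2) ^ 2 + (m1 * d2 - m2 * d1) ^ 2
        = (d1 ^ 2 + d2 ^ 2) * (m1 ^ 2 + m2 ^ 2) := by ring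
      rw [hcross] at this
      linarith
    have hge : N ≤ d1 * m1 + d2 * m2 := by
      have h5 : N ^ 2 ≤ (d1 * m1 + d2 * m2) ^ 2 := by
        rw [hsq, ← hN2]
        nlinarith
      exact le_of_sq_le_sq h5 hpos.le |> fun h => by simpa using h
    nlinarith
  · have h1' : (a * p1 * α - (a * p2 - b) * β) * α = a * p1 * ((d1 ^ 2 + d2 ^ 2) * N) := by
      have : (a * p1 * α - (a * p2 - b) * β) * α
        = a * p1 * (α ^ 2 + β ^ 2) - β * (a * p1 * β + (a * p2 - b) * α) := by ring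
      rw [this, him, hab2]; ring
    have h2' : a * p1 * α - (a * p2 - b) * β = p1 * (d1 ^ 2 + d2 ^ 2) := by
      rw [hαN] at h1'
      rw [hαN]
      have hne : a * N ≠ 0 := mul_ne_zero ha hN.ne'
      apply mul_right_cancel₀ hne
      rw [h1']; ring
    rw [h2'] at hre
    have h3' : c * N ≤ p1 * (d1 ^ 2 + d2 ^ 2) := by
      have : c * N ≤ c * (d1 ^ 2 + d2 ^ 2) := mul_le_mul_of_nonneg_left hmin hc0
      have h4 : c * (d1 ^ 2 + d2 ^ 2) ≤ p1 * (d1 ^ 2 + d2 ^ 2) :=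
        mul_le_mul_of_nonneg_right hp (by positivity)
      linarith
    nlinarith

/-- derivative of dslope off the base point -/
theorem hasDerivAt_dslope {f : ℂ → ℂ} {z : ℂ} (hz : z ≠ 0) (h0 : f 0 = 0)
    (hf : DifferentiableAt ℂ f z) :
    HasDerivAt (dslope f 0) ((deriv f z - dslope f 0 z) / z) z := by
  have h1 : HasDerivAt (fun w => f w / w) ((deriv f z * z - f z * 1) / z ^ 2) z :=
    hf.hasDerivAt.div (hasDerivAt_id z) hz
  have h2 : dslope f 0 =ᶠ[𝓝 z] fun w => f w / w := by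
    filter_upwards [isOpen_ne.mem_nhds hz] with w hw
    rw [dslope_of_ne _ hw, slope_def_field, h0]
    simp
  have h3 : dslope f 0 z = f z / z := by
    rw [dslope_of_ne _ hz, slope_def_field, h0]
    simp
  have h4 := h1.congr_of_eventuallyEq h2
  have e : (deriv f z - dslope f 0 z) / z = (deriv f z * z - f z * 1) / z ^ 2 := by
    rw [h3]
    field_simp
  rw [e]
  exact h4

/-- positivity of the orientation from non-vanishing -/
theorem orient {d m : ℂ → ℂ} {K : Set ℂ} (hK : IsPreconnected K) (hd : ContinuousOn d K)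
    (hm : ContinuousOn m K) (h0K : (0:ℂ) ∈ K) (hd0 : d 0 = 1) (hm0 : m 0 = 1)
    (hne : ∀ z ∈ K, ∀ e : ℂ, ‖e‖ = 1 → (e.re:ℂ) * d z - I * (e.im:ℂ) * m z ≠ 0) :
    ∀ z ∈ K, 0 < (d z).re * (m z).re + (d z).im * (m z).im := by
  have hc : ContinuousOn (fun z => (d z).re * (m z).re + (d z).im * (m z).im) K := by
    have h1 := Complex.continuous_re.comp_continuousOn hd
    have h2 := Complex.continuous_im.comp_continuousOn hd
    have h3 := Complex.continuous_re.comp_continuousOn hm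
    have h4 := Complex.continuous_im.comp_continuousOn hm
    exact (h1.mul h3).add (h2.mul h4)
  have hnz : ∀ z ∈ K, (d z).re * (m z).re + (d z).im * (m z).im ≠ 0 := by
    intro z hz h
    have hmz : m z ≠ 0 := by
      intro hmz
      apply hne z hz I (by simp)
      simp [hmz]
    -- d = i y m / |m|^2
    set y := (d z).im * (m z).re - (d z).re * (m z).im with hy
    set N := (m z).re ^ 2 + (m z).im ^ 2 with hN
    have hNpos : 0 < N := by
      have := Complex.normSq_pos.mpr hmz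
      rw [Complex.normSq_apply] at this
      rw [hN]; nlinarith
    have hsq : 0 < N ^ 2 + y ^ 2 := by positivity
    set s := Real.sqrt (N ^ 2 + y ^ 2) with hs
    have hspos : 0 < s := Real.sqrt_pos.mpr hsq
    have hs2 : s ^ 2 = N ^ 2 + y ^ 2 := Real.sq_sqrt hsq.le
    have he : ‖(⟨N / s, y / s⟩ : ℂ)‖ = 1 := by
      rw [Complex.norm_eq_sqrt_sq_add_sq]
      simp only
      rw [div_pow, div_pow, ← add_div, hs2, div_self hsq.ne', Real.sqrt_one]
    apply hne z hz ⟨N / s, y / s⟩ he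
    have hre : N * (d z).re + y * (m z).im = 0 := by
      rw [hN, hy]
      linear_combination (m z).re * h
    have him : N * (d z).im - y * (m z).re = 0 := by
      rw [hN, hy]
      linear_combination (m z).im * h
    apply Complex.ext
    · simp
      field_simp
      linarith
    · simp
      field_simp
      linarith
  intro z hz
  by_contra hcon
  push Not at hcon
  have h1 : (fun z => (d z).re * (m z).re + (d z).im * (m z).im) 0 = 1 := by
    simp [hd0, hm0]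
  have := hK.intermediate_value hz h0K hc
  have hmem : (0:ℝ) ∈ Icc ((fun z => (d z).re * (m z).re + (d z).im * (m z).im) z)
      ((fun z => (d z).re * (m z).re + (d z).im * (m z).im) 0) := by
    rw [h1]
    exact ⟨hcon, by norm_num⟩
  obtain ⟨w, hw, hw0⟩ := this hmem
  exact hnz w hw hw0

/-- the functional -/
noncomputable def H (f : ℂ → ℂ) (z e : ℂ) : ℂ :=
  (e.re:ℂ) * deriv f z - I * (e.im:ℂ) * dslope f 0 z

theorem H_re (f : ℂ → ℂ) (z e : ℂ) :
    (H f z e).re = e.re * (deriv f z).re + e.im * (dslope f 0 z).im := by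
  simp [H]

theorem H_im (f : ℂ → ℂ) (z e : ℂ) :
    (H f z e).im = e.re * (deriv f z).im - e.im * (dslope f 0 z).re := by
  simp [H]

theorem stat_theta {f : ℂ → ℂ} {z e : ℂ} (he : ‖e‖ = 1)
    (hmin : ∀ e' : ℂ, ‖e'‖ = 1 → ‖H f z e‖ ^ 2 ≤ ‖H f z e'‖ ^ 2) :
    (e.re * (deriv f z).re + e.im * (dslope f 0 z).im)
      * (-e.im * (deriv f z).re + e.re * (dslope f 0 z).im)
    + (e.re * (deriv f z).im - e.im * (dslope f 0 z).re)
      * (-e.im * (deriv f z).im - e.re * (dslope f 0 z).re) = 0 := by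
  set a := e.re
  set b := e.im
  set d1 := (deriv f z).re
  set d2 := (deriv f z).im
  set m1 := (dslope f 0 z).re
  set m2 := (dslope f 0 z).im
  have hab : a ^ 2 + b ^ 2 = 1 := by
    have : ‖e‖ ^ 2 = 1 := by rw [he]; norm_num
    rw [← Complex.normSq_eq_norm_sq, Complex.normSq_apply] at this
    nlinarith
  have hn : ∀ e' : ℂ, ‖H f z e'‖ ^ 2 = (e'.re * d1 + e'.im * m2) ^ 2 + (e'.re * d2 - e'.im * m1) ^ 2 := by
    intro e'
    rw [← Complex.normSq_eq_norm_sq, Complex.normSq_apply, H_re, H_im]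
    ring
  have hmin2 : ∀ t : ℝ, (a * d1 + b * m2) ^ 2 + (a * d2 - b * m1) ^ 2 ≤
      ((a * Real.cos t - b * Real.sin t) * d1 + (a * Real.sin t + b * Real.cos t) * m2) ^ 2
      + ((a * Real.cos t - b * Real.sin t) * d2 - (a * Real.sin t + b * Real.cos t) * m1) ^ 2 := by
    intro t
    have h1 := hmin ⟨a * Real.cos t - b * Real.sin t, a * Real.sin t + b * Real.cos t⟩ (by
      rw [Complex.norm_eq_sqrt_sq_add_sq]
      simp only
      rw [Real.sqrt_eq_one]
      nlinarith [Real.sin_sq_add_cos_sq t])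
    rw [hn, hn] at h1
    exact h1
  have hd : HasDerivAt (fun t : ℝ =>
      ((a * Real.cos t - b * Real.sin t) * d1 + (a * Real.sin t + b * Real.cos t) * m2) ^ 2
      + ((a * Real.cos t - b * Real.sin t) * d2 - (a * Real.sin t + b * Real.cos t) * m1) ^ 2)
      (2 * (a * d1 + b * m2) * (-b * d1 + a * m2) + 2 * (a * d2 - b * m1) * (-b * d2 - a * m1)) 0 := by
    have hc := Real.hasDerivAt_cos 0
    have hs := Real.hasDerivAt_sin 0
    have hA := (hc.const_mul a).sub (hs.const_mul b)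
    have hB := (hs.const_mul a).add (hc.const_mul b)
    have h1 := ((hA.mul_const d1).add (hB.mul_const m2)).pow 2
    have h2 := ((hA.mul_const d2).sub (hB.mul_const m1)).pow 2
    have h3 := h1.add h2
    refine h3.congr_deriv ?_
    simp
  have hloc : IsLocalMin (fun t : ℝ =>
      ((a * Real.cos t - b * Real.sin t) * d1 + (a * Real.sin t + b * Real.cos t) * m2) ^ 2
      + ((a * Real.cos t - b * Real.sin t) * d2 - (a * Real.sin t + b * Real.cos t) * m1) ^ 2) 0 := by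
    apply Filter.Eventually.of_forall
    intro t
    have := hmin2 t
    simpa using this
  have := hloc.hasDerivAt_eq_zero hd
  linarith

theorem inner_eq (x y : ℂ) : inner ℝ x y = x.re * y.re + x.im * y.im := by
  rw [Complex.inner]
  simp
  ring

theorem hasDerivAt_H {f : ℂ → ℂ} (hf : DifferentiableOn ℂ f (ball 0 1)) (h0 : f 0 = 0)
    {z : ℂ} (hz : z ∈ ball (0:ℂ) 1) (hz0 : z ≠ 0) (e : ℂ) :
    HasDerivAt (fun w => H f w e)
      ((e.re:ℂ) * deriv (deriv f) z - I * (e.im:ℂ) * ((deriv f z - dslope f 0 z) / z)) z := by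
  have h1 : DifferentiableAt ℂ (deriv f) z :=
    (hf.deriv isOpen_ball).differentiableAt (isOpen_ball.mem_nhds hz)
  have h2 := hasDerivAt_dslope hz0 h0 (hf.differentiableAt (isOpen_ball.mem_nhds hz))
  exact (h1.hasDerivAt.const_mul _).sub (h2.const_mul _)

theorem stat_arg {f : ℂ → ℂ} {z e D : ℂ} (hD : HasDerivAt (fun w => H f w e) D z)
    (hmin : ∀ w : ℂ, ‖w‖ = ‖z‖ → ‖H f z e‖ ^ 2 ≤ ‖H f w e‖ ^ 2) :
    (H f z e).re * (z * D).im - (H f z e).im * (z * D).re = 0 := by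
  have hcurve : HasDerivAt (fun t : ℝ => z * Complex.exp (t * I)) (z * I) 0 := by
    have h1 : HasDerivAt (fun t : ℝ => Complex.exp ((t:ℂ) * I)) (Complex.exp (((0:ℝ):ℂ) * I) * (1 * I)) 0 :=
      ((Complex.ofRealCLM.hasDerivAt (x := (0:ℝ))).mul_const I).cexp
    have h2 := h1.const_mul z
    simpa using h2
  have hcomp : HasDerivAt (fun t : ℝ => H f (z * Complex.exp (t * I)) e) (D * (z * I)) 0 := by
    have h1 : HasDerivAt (fun w => H f w e) D (z * Complex.exp (((0:ℝ):ℂ) * I)) := by simpa using hD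
    exact HasDerivAt.comp (0:ℝ) h1 hcurve
  have hn := hcomp.norm_sq
  have hloc : IsLocalMin (fun t : ℝ => ‖H f (z * Complex.exp (t * I)) e‖ ^ 2) 0 := by
    apply Filter.Eventually.of_forall
    intro t
    have := hmin (z * Complex.exp (t * I)) (by
      rw [norm_mul, Complex.norm_exp_ofReal_mul_I, mul_one])
    simpa using this
  have h2 := hloc.hasDerivAt_eq_zero hn
  rw [inner_eq] at h2
  simp at h2
  simp
  linarith

theorem stat_rad {f : ℂ → ℂ} {Λ : ℝ → ℝ} {κ : ℝ}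
    {z e D : ℂ} (hD : HasDerivAt (fun w => H f w e) D z)
    (hΛ : HasDerivAt Λ κ ‖z‖)
    (hmin : ∀ t : ℝ, 0 < t → t < 1 → ‖H f z e‖ ^ 2 * Real.exp (2 * Λ ‖z‖) ≤
      ‖H f (t * z) e‖ ^ 2 * Real.exp (2 * Λ (t * ‖z‖))) :
    (H f z e).re * (z * D).re + (H f z e).im * (z * D).im ≤ - (‖z‖ * κ) * ‖H f z e‖ ^ 2 := by
  have hcurve : HasDerivAt (fun t : ℝ => (t:ℂ) * z) z 1 := by
    have := (Complex.ofRealCLM.hasDerivAt (x := (1:ℝ))).mul_const z
    simpa using this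
  have hcomp : HasDerivAt (fun t : ℝ => H f ((t:ℂ) * z) e) (D * z) 1 := by
    have h1 : HasDerivAt (fun w => H f w e) D (((1:ℝ):ℂ) * z) := by simpa using hD
    exact HasDerivAt.comp (1:ℝ) h1 hcurve
  have hn := hcomp.norm_sq
  have hL : HasDerivAt (fun t : ℝ => Λ (t * ‖z‖)) (κ * ‖z‖) 1 := by
    have h1 : HasDerivAt Λ κ (1 * ‖z‖) := by simpa using hΛ
    have h2 : HasDerivAt (fun t : ℝ => t * ‖z‖) ‖z‖ 1 := by
      simpa using (hasDerivAt_id (1:ℝ)).mul_const ‖z‖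
    exact HasDerivAt.comp (1:ℝ) h1 h2
  have hE : HasDerivAt (fun t : ℝ => Real.exp (2 * Λ (t * ‖z‖)))
      (Real.exp (2 * Λ (1 * ‖z‖)) * (2 * (κ * ‖z‖))) 1 := (hL.const_mul 2).exp
  have hT := hn.mul hE
  have hle : (2 * inner ℝ (H f (((1:ℝ):ℂ) * z) e) (D * z)) * Real.exp (2 * Λ (1 * ‖z‖))
      + ‖H f (((1:ℝ):ℂ) * z) e‖ ^ 2 * (Real.exp (2 * Λ (1 * ‖z‖)) * (2 * (κ * ‖z‖))) ≤ 0 := by
    by_contra hcon
    push Not at hcon
    have hslope := hasDerivAt_iff_tendsto_slope.mp hT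
    have hev := hslope.eventually (lt_mem_nhds hcon)
    have hev2 := hev.filter_mono
      (nhdsWithin_mono (1:ℝ) (show Iio (1:ℝ) ⊆ {1}ᶜ from fun x hx => ne_of_lt hx))
    have hev3 : ∀ᶠ t : ℝ in 𝓝[<] 1, 0 < t :=
      (lt_mem_nhds (show (0:ℝ) < 1 by norm_num)).filter_mono nhdsWithin_le_nhds
    obtain ⟨t, ⟨ht1, ht2⟩, ht3⟩ := ((hev2.and hev3).and self_mem_nhdsWithin).exists
    have ht3' : t < 1 := ht3
    rw [slope_def_field] at ht1
    have h5 := hmin t ht2 ht3'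
    have h6 : 0 ≤ (fun t : ℝ => ‖H f ((t:ℂ) * z) e‖ ^ 2 * Real.exp (2 * Λ (t * ‖z‖))) t -
      (fun t : ℝ => ‖H f ((t:ℂ) * z) e‖ ^ 2 * Real.exp (2 * Λ (t * ‖z‖))) 1 := by
      simp only [Complex.ofReal_one, one_mul]
      linarith
    have h7 := div_nonpos_of_nonneg_of_nonpos h6 (show t - 1 ≤ 0 by linarith)
    exact absurd ht1 (not_lt.mpr h7)
  rw [inner_eq] at hle
  simp only [Complex.ofReal_one, one_mul] at hle
  have hexp := Real.exp_pos (2 * Λ ‖z‖)
  have h8 : Real.exp (2 * Λ ‖z‖) * (2 * ((H f z e).re * (D * z).re + (H f z e).im * (D * z).im)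
      + ‖H f z e‖ ^ 2 * (2 * (κ * ‖z‖))) ≤ 0 := by linarith
  have h9 : (2 * ((H f z e).re * (D * z).re + (H f z e).im * (D * z).im)
      + ‖H f z e‖ ^ 2 * (2 * (κ * ‖z‖))) ≤ 0 := by
    by_contra hcon
    push Not at hcon
    have := mul_pos hexp hcon
    linarith
  rw [mul_comm z D]
  linarith


theorem key_eps {f : ℂ → ℂ} (hf : DifferentiableOn ℂ f (ball 0 1)) (h0 : f 0 = 0)
    (h1 : deriv f 0 = 1) (hne : ∀ z ∈ ball (0:ℂ) 1, deriv f z ≠ 0) {Λ κ : ℝ → ℝ}
    (hΛ0 : Λ 0 = 0) (hΛ : ∀ r ∈ Ico (0:ℝ) 1, HasDerivAt Λ (κ r) r)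
    (hκ0 : ∀ r ∈ Ioo (0:ℝ) 1, 0 ≤ κ r) (hκ1 : ∀ r ∈ Ioo (0:ℝ) 1, 0 ≤ 1 - r * κ r)
    (hP : ∀ z ∈ ball (0:ℂ) 1, z ≠ 0 →
      1 - ‖z‖ * κ ‖z‖ ≤ (1 + z * deriv (deriv f) z / deriv f z).re)
    {ε : ℝ} (hε : 0 < ε) {z1 : ℂ} (hz1 : z1 ∈ ball (0:ℂ) 1) {e1 : ℂ} (he1 : ‖e1‖ = 1) :
    1 ≤ ‖H f z1 e1‖ ^ 2 * Real.exp (2 * (Λ ‖z1‖ + ε * ‖z1‖)) := by
  by_contra hcon
  push Not at hcon
  have hz1' : ‖z1‖ < 1 := by simpa using hz1
  obtain ⟨W, hW⟩ : ∃ W : ℂ → ℂ → ℝ, ∀ z e, W z e =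
    ‖H f z e‖ ^ 2 * Real.exp (2 * (Λ ‖z‖ + ε * ‖z‖)) := ⟨_, fun _ _ => rfl⟩
  rw [← hW] at hcon
  set c := max (W z1 e1) (1/2) with hc
  have hc1 : c < 1 := max_lt hcon (by norm_num)
  have hcpos : 0 < c := lt_of_lt_of_le (by norm_num) (le_max_right _ _)
  have hsub : closedBall (0:ℂ) ‖z1‖ ⊆ ball 0 1 := closedBall_subset_ball hz1'
  have hdc : ContinuousOn (deriv f) (ball 0 1) := (hf.deriv isOpen_ball).continuousOn
  have hmd : DifferentiableOn ℂ (dslope f 0) (ball 0 1) :=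
    (differentiableOn_dslope (isOpen_ball.mem_nhds (by simp))).mpr hf
  have hmc : ContinuousOn (dslope f 0) (ball 0 1) := hmd.continuousOn
  have hΛc : ContinuousOn (fun z : ℂ => Λ ‖z‖) (ball 0 1) := by
    intro z hz
    have hz' : ‖z‖ < 1 := by simpa using hz
    have h2 : ContinuousAt Λ ‖z‖ := (hΛ ‖z‖ ⟨norm_nonneg z, hz'⟩).continuousAt
    exact (ContinuousAt.comp (f := fun z : ℂ => ‖z‖) h2 continuous_norm.continuousAt).continuousWithinAt
  have hWc : ContinuousOn (fun p : ℂ × ℂ => W p.1 p.2) (ball 0 1 ×ˢ univ) := by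
    have a1 : ContinuousOn (fun p : ℂ × ℂ => deriv f p.1) (ball 0 1 ×ˢ univ) :=
      hdc.comp continuous_fst.continuousOn (fun p hp => hp.1)
    have a2 : ContinuousOn (fun p : ℂ × ℂ => dslope f 0 p.1) (ball 0 1 ×ˢ univ) :=
      hmc.comp continuous_fst.continuousOn (fun p hp => hp.1)
    have a3 : ContinuousOn (fun p : ℂ × ℂ => Λ ‖p.1‖) (ball 0 1 ×ˢ univ) :=
      hΛc.comp continuous_fst.continuousOn (fun p hp => hp.1)
    have a4 : ContinuousOn (fun p : ℂ × ℂ => ((p.2.re : ℝ) : ℂ)) (ball 0 1 ×ˢ univ) :=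
      (Complex.continuous_ofReal.comp (Complex.continuous_re.comp continuous_snd)).continuousOn
    have a5 : ContinuousOn (fun p : ℂ × ℂ => ((p.2.im : ℝ) : ℂ)) (ball 0 1 ×ˢ univ) :=
      (Complex.continuous_ofReal.comp (Complex.continuous_im.comp continuous_snd)).continuousOn
    have a6 : ContinuousOn (fun p : ℂ × ℂ => H f p.1 p.2) (ball 0 1 ×ˢ univ) :=
      (a4.mul a1).sub ((continuousOn_const.mul a5).mul a2)
    have a7 : ContinuousOn (fun p : ℂ × ℂ => ‖p.1‖) (ball 0 1 ×ˢ univ) :=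
      (continuous_norm.comp continuous_fst).continuousOn
    have a8 : ContinuousOn (fun p : ℂ × ℂ => ‖H f p.1 p.2‖ ^ 2 *
        Real.exp (2 * (Λ ‖p.1‖ + ε * ‖p.1‖))) (ball 0 1 ×ˢ univ) :=
      (a6.norm.pow 2).mul (continuousOn_const.mul (a3.add (continuousOn_const.mul a7))).rexp
    simpa only [hW] using a8
  set F : Set (ℂ × ℂ) := {p | p.1 ∈ closedBall (0:ℂ) ‖z1‖ ∧ p.2 ∈ sphere (0:ℂ) 1 ∧
    W p.1 p.2 ≤ c} with hF
  have hFc : IsCompact F := by
    refine IsCompact.of_isClosed_subset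
      ((isCompact_closedBall (0:ℂ) ‖z1‖).prod (isCompact_sphere (0:ℂ) 1)) ?_
      (fun p hp => ⟨hp.1, hp.2.1⟩)
    have hc2 : ContinuousOn (fun p : ℂ × ℂ => W p.1 p.2)
        (closedBall (0:ℂ) ‖z1‖ ×ˢ sphere (0:ℂ) 1) :=
      hWc.mono (fun p hp => ⟨hsub hp.1, mem_univ _⟩)
    have := hc2.preimage_isClosed_of_isClosed (isClosed_closedBall.prod isClosed_sphere)
      (isClosed_Iic (a := c))
    convert this using 1
    ext p
    constructor
    · intro hp
      exact ⟨⟨hp.1, hp.2.1⟩, hp.2.2⟩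
    · intro hp
      exact ⟨hp.1.1, hp.1.2, hp.2⟩
  have hFne : F.Nonempty := ⟨(z1, e1), by simp, by simpa using he1, le_max_left _ _⟩
  obtain ⟨p, hpF, hpmin⟩ := hFc.exists_isMinOn hFne (f := fun p : ℂ × ℂ => ‖p.1‖) (by fun_prop)
  obtain ⟨z, e⟩ := p
  obtain ⟨hzR, he, hWz⟩ := hpF
  simp only at hzR he hWz
  have hz : z ∈ ball (0:ℂ) 1 := hsub hzR
  have hz' : ‖z‖ < 1 := by simpa using hz
  have hzR' : ‖z‖ ≤ ‖z1‖ := by simpa using hzR
  have he' : ‖e‖ = 1 := by simpa using he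
  have hW0 : ∀ e : ℂ, ‖e‖ = 1 → W 0 e = 1 := by
    intro e he
    have h2 : ‖H f 0 e‖ ^ 2 = 1 := by
      rw [← Complex.normSq_eq_norm_sq, Complex.normSq_apply, H_re, H_im]
      have h3 : dslope f 0 0 = 1 := by rw [dslope_same, h1]
      rw [h1, h3]
      have : ‖e‖ ^ 2 = 1 := by rw [he]; norm_num
      rw [← Complex.normSq_eq_norm_sq, Complex.normSq_apply] at this
      simp
      linarith
    rw [hW, h2, norm_zero, hΛ0]
    simp
  have hz0 : z ≠ 0 := by
    intro h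
    rw [h, hW0 e he'] at hWz
    linarith
  have hzpos : 0 < ‖z‖ := norm_pos_iff.mpr hz0
  have hmin1 : ∀ w : ℂ, ‖w‖ < ‖z‖ → ∀ e' : ℂ, ‖e'‖ = 1 → c < W w e' := by
    intro w hw e' he'
    by_contra hcon2
    push Not at hcon2
    have hmem : (w, e') ∈ F := ⟨by simp only [mem_closedBall, dist_zero_right]; linarith,
      by simpa using he', hcon2⟩
    have := hpmin hmem
    have h3 : ‖z‖ ≤ ‖w‖ := this
    linarith
  have hmin2 : ∀ w : ℂ, ‖w‖ ≤ ‖z‖ → ∀ e' : ℂ, ‖e'‖ = 1 → c ≤ W w e' := by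
    intro w hw e' he'
    rcases lt_or_eq_of_le hw with hlt | heq
    · exact (hmin1 w hlt e' he').le
    · have hwb : w ∈ ball (0:ℂ) 1 := by simpa [heq] using hz'
      have hca : ContinuousAt (fun p : ℂ × ℂ => W p.1 p.2) (w, e') :=
        hWc.continuousAt ((isOpen_ball.prod isOpen_univ).mem_nhds ⟨hwb, mem_univ _⟩)
      have hpath : Tendsto (fun t : ℝ => ((t:ℂ) * w, e')) (𝓝[<] 1) (𝓝 (w, e')) := by
        have hcont : Continuous (fun t : ℝ => ((t:ℂ) * w, e')) := by fun_prop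
        have := hcont.tendsto 1
        simp only [Complex.ofReal_one, one_mul] at this
        exact this.mono_left nhdsWithin_le_nhds
      have hlim : Tendsto (fun t : ℝ => W ((t:ℂ) * w) e') (𝓝[<] 1) (𝓝 (W w e')) :=
        hca.tendsto.comp hpath
      refine ge_of_tendsto hlim ?_
      have hev3 : ∀ᶠ t : ℝ in 𝓝[<] 1, 0 < t :=
        (lt_mem_nhds (show (0:ℝ) < 1 by norm_num)).filter_mono nhdsWithin_le_nhds
      filter_upwards [hev3, self_mem_nhdsWithin] with t ht0 ht1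
      have ht1' : t < 1 := ht1
      refine (hmin1 _ ?_ e' he').le
      rw [norm_mul, Complex.norm_real, Real.norm_of_nonneg ht0.le, heq]
      nlinarith
  have hWeq : W z e = c := le_antisymm hWz (hmin2 z le_rfl e he')
  -- stationarity
  have hexpz : 0 < Real.exp (2 * (Λ ‖z‖ + ε * ‖z‖)) := Real.exp_pos _
  have hθmin : ∀ e' : ℂ, ‖e'‖ = 1 → ‖H f z e‖ ^ 2 ≤ ‖H f z e'‖ ^ 2 := by
    intro e' he'
    have := hmin2 z le_rfl e' he'
    rw [← hWeq, hW, hW] at this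
    exact le_of_mul_le_mul_right this hexpz
  have S1 := stat_theta he' hθmin
  have hD := hasDerivAt_H hf h0 hz hz0 e
  set D := (e.re:ℂ) * deriv (deriv f) z - I * (e.im:ℂ) * ((deriv f z - dslope f 0 z) / z) with hDdef
  have hargmin : ∀ w : ℂ, ‖w‖ = ‖z‖ → ‖H f z e‖ ^ 2 ≤ ‖H f w e‖ ^ 2 := by
    intro w hw
    have := hmin2 w hw.le e he'
    rw [← hWeq, hW, hW, hw] at this
    exact le_of_mul_le_mul_right this hexpz
  have S2 := stat_arg hD hargmin
  have hΛ2 : HasDerivAt (fun r => Λ r + ε * r) (κ ‖z‖ + ε) ‖z‖ := by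
    have h3 : HasDerivAt (fun r => Λ r + ε * r) (κ ‖z‖ + ε * 1) ‖z‖ :=
      (hΛ ‖z‖ ⟨hzpos.le, hz'⟩).add ((hasDerivAt_id ‖z‖).const_mul ε)
    simpa only [mul_one] using h3
  have hradmin : ∀ t : ℝ, 0 < t → t < 1 →
      ‖H f z e‖ ^ 2 * Real.exp (2 * (fun r => Λ r + ε * r) ‖z‖) ≤
      ‖H f (t * z) e‖ ^ 2 * Real.exp (2 * (fun r => Λ r + ε * r) (t * ‖z‖)) := by
    intro t ht0 ht1
    have hn : ‖(t:ℂ) * z‖ = t * ‖z‖ := by
      rw [norm_mul, Complex.norm_real, Real.norm_of_nonneg ht0.le]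
    have := hmin2 ((t:ℂ) * z) (by rw [hn]; nlinarith) e he'
    rw [← hWeq, hW, hW, hn] at this
    exact this
  have S3 := stat_rad hD hΛ2 hradmin
  -- positivity of orientation on the closed ball
  have hHne : ∀ w ∈ closedBall (0:ℂ) ‖z‖, ∀ e' : ℂ, ‖e'‖ = 1 →
      (e'.re:ℂ) * deriv f w - I * (e'.im:ℂ) * dslope f 0 w ≠ 0 := by
    intro w hw e' he' hzero
    have h3 := hmin2 w (by simpa using hw) e' he'
    have h4 : H f w e' = 0 := hzero
    rw [hW, h4] at h3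
    simp at h3
    linarith
  have hsub2 : closedBall (0:ℂ) ‖z‖ ⊆ ball 0 1 := closedBall_subset_ball hz'
  have hor := orient (K := closedBall (0:ℂ) ‖z‖) (convex_closedBall _ _).isPreconnected
    (hdc.mono hsub2) (hmc.mono hsub2) (by simp) h1 (by rw [dslope_same, h1]) hHne z (by simp)
  -- P
  have hdz := hne z hz
  set P := 1 + z * deriv (deriv f) z / deriv f z with hPdef
  have hzD : z * D = ((e.re : ℂ) * P - I * (e.im:ℂ)) * deriv f z - H f z e := by
    rw [hDdef, hPdef, H]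
    field_simp
    ring
  have hzDre : (z * D).re = e.re * P.re * (deriv f z).re - (e.re * P.im - e.im) * (deriv f z).im
      - (H f z e).re := by
    rw [hzD]; simp
  have hzDim : (z * D).im = e.re * P.re * (deriv f z).im + (e.re * P.im - e.im) * (deriv f z).re
      - (H f z e).im := by
    rw [hzD]; simp
  have hHn : ‖H f z e‖ ^ 2 = (H f z e).re ^ 2 + (H f z e).im ^ 2 := by
    rw [← Complex.normSq_eq_norm_sq, Complex.normSq_apply]; ring
  have hab : e.re ^ 2 + e.im ^ 2 = 1 := by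
    have : ‖e‖ ^ 2 = 1 := by rw [he']; norm_num
    rw [← Complex.normSq_eq_norm_sq, Complex.normSq_apply] at this
    nlinarith
  have hr01 : ‖z‖ ∈ Ioo (0:ℝ) 1 := ⟨hzpos, hz'⟩
  have hHpos : 0 < ‖H f z e‖ ^ 2 := by
    by_contra hcon3
    push Not at hcon3
    have h5 : W z e ≤ 0 := by
      rw [hW]
      exact mul_nonpos_of_nonpos_of_nonneg hcon3 hexpz.le
    linarith
  rw [hzDre, hzDim] at S2 S3
  rw [hHn] at S3 hHpos
  rw [H_re, H_im] at S2 S3 hHpos
  have hmin0 := hθmin 1 (by simp)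
  rw [hHn, H_re, H_im, ← Complex.normSq_eq_norm_sq, Complex.normSq_apply, H_re, H_im] at hmin0
  simp only [Complex.one_re, Complex.one_im, one_mul, zero_mul, add_zero, sub_zero] at hmin0
  refine alg (a := e.re) (b := e.im) (d1 := (deriv f z).re) (d2 := (deriv f z).im)
    (m1 := (dslope f 0 z).re) (m2 := (dslope f 0 z).im) (p1 := P.re) (p2 := P.im)
    (c := 1 - ‖z‖ * κ ‖z‖) (ε := ‖z‖ * ε) hab (by positivity) (hκ1 _ hr01) ?_ (hP z hz hz0)
    hHpos (by nlinarith) S1 hor ?_ ?_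
  · have := mul_nonneg hzpos.le (hκ0 _ hr01)
    linarith
  · linarith
  · nlinarith


theorem key {f : ℂ → ℂ} (hf : DifferentiableOn ℂ f (ball 0 1)) (h0 : f 0 = 0)
    (h1 : deriv f 0 = 1) (hne : ∀ z ∈ ball (0:ℂ) 1, deriv f z ≠ 0) {Λ κ : ℝ → ℝ}
    (hΛ0 : Λ 0 = 0) (hΛ : ∀ r ∈ Ico (0:ℝ) 1, HasDerivAt Λ (κ r) r)
    (hκ0 : ∀ r ∈ Ioo (0:ℝ) 1, 0 ≤ κ r) (hκ1 : ∀ r ∈ Ioo (0:ℝ) 1, 0 ≤ 1 - r * κ r)
    (hP : ∀ z ∈ ball (0:ℂ) 1, z ≠ 0 →
      1 - ‖z‖ * κ ‖z‖ ≤ (1 + z * deriv (deriv f) z / deriv f z).re)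
    {z : ℂ} (hz : z ∈ ball (0:ℂ) 1) {e : ℂ} (he : ‖e‖ = 1) :
    Real.exp (-Λ ‖z‖) ≤ ‖H f z e‖ := by
  have h2 : 1 ≤ ‖H f z e‖ ^ 2 * Real.exp (2 * Λ ‖z‖) := by
    have hlim : Tendsto (fun ε : ℝ => ‖H f z e‖ ^ 2 * Real.exp (2 * (Λ ‖z‖ + ε * ‖z‖)))
        (𝓝[>] 0) (𝓝 (‖H f z e‖ ^ 2 * Real.exp (2 * Λ ‖z‖))) := by
      have hc : Continuous (fun ε : ℝ => ‖H f z e‖ ^ 2 * Real.exp (2 * (Λ ‖z‖ + ε * ‖z‖))) := by
        fun_prop
      have := hc.tendsto 0
      simp only [zero_mul, add_zero] at this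
      exact this.mono_left nhdsWithin_le_nhds
    refine ge_of_tendsto hlim ?_
    filter_upwards [self_mem_nhdsWithin] with ε hε
    exact key_eps hf h0 h1 hne hΛ0 hΛ hκ0 hκ1 hP hε hz he
  have h3 : Real.exp (-Λ ‖z‖) ^ 2 ≤ ‖H f z e‖ ^ 2 := by
    have h4 : Real.exp (-Λ ‖z‖) ^ 2 * Real.exp (2 * Λ ‖z‖) = 1 := by
      rw [← Real.exp_nat_mul, ← Real.exp_add]
      simp
    have h5 := Real.exp_pos (2 * Λ ‖z‖)
    exact le_of_mul_le_mul_right (by linarith) h5
  exact (sq_le_sq₀ (Real.exp_pos _).le (norm_nonneg _)).mp h3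

theorem one_add_mul_ne {B : ℝ} (hB : -1 ≤ B) (hB1 : B < 1) {w : ℂ} (hw : ‖w‖ < 1) :
    1 + (B:ℂ) * w ≠ 0 := by
  intro h
  have h1 : (B:ℂ) * w = -1 := by linear_combination h
  have h2 : ‖(B:ℂ) * w‖ = 1 := by rw [h1]; simp
  rw [norm_mul, Complex.norm_real, Real.norm_eq_abs] at h2
  have h3 : |B| ≤ 1 := abs_le.mpr ⟨hB, hB1.le⟩
  nlinarith [abs_nonneg B, norm_nonneg w]

theorem re_bound {A B r : ℝ} (hB : -1 ≤ B) (hBA : B < A) (hA : A ≤ 1) (hr1 : r < 1)
    {w : ℂ} (hw : ‖w‖ ≤ r) :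
    1 - r * ((A - B) / (1 - B * r)) ≤ ((1 + (A:ℂ) * w) / (1 + (B:ℂ) * w)).re := by
  have hr0 : 0 ≤ r := le_trans (norm_nonneg w) hw
  have hB1 : B < 1 := lt_of_lt_of_le hBA hA
  have hne := one_add_mul_ne hB hB1 (lt_of_le_of_lt hw hr1)
  have hBr : 0 < 1 - B * r := by
    rcases le_or_gt B 0 with h | h
    · nlinarith
    · nlinarith
  have h1 : (1 + (A:ℂ) * w) / (1 + (B:ℂ) * w) = 1 + ((A - B : ℝ):ℂ) * (w / (1 + (B:ℂ) * w)) := by
    rw [div_eq_iff hne, add_mul, mul_assoc, div_mul_cancel₀ _ hne]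
    push_cast
    ring
  rw [h1, Complex.add_re, Complex.one_re, Complex.re_ofReal_mul]
  have hN : 0 < normSq (1 + (B:ℂ) * w) := Complex.normSq_pos.mpr hne
  have h2 : (w / (1 + (B:ℂ) * w)).re = (w.re + B * (w.re ^ 2 + w.im ^ 2)) / normSq (1 + (B:ℂ) * w) := by
    rw [Complex.div_re]
    simp
    field_simp
    ring
  have h3 : normSq (1 + (B:ℂ) * w) = 1 + 2 * B * w.re + B ^ 2 * (w.re ^ 2 + w.im ^ 2) := by
    rw [Complex.normSq_apply]
    simp
    ring
  have hρ : ‖w‖ ^ 2 = w.re ^ 2 + w.im ^ 2 := by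
    rw [← Complex.normSq_eq_norm_sq, Complex.normSq_apply]; ring
  have hx : -‖w‖ ≤ w.re := by
    have := Complex.abs_re_le_norm w
    exact (abs_le.mp this).1
  have h4 : -(r / (1 - B * r)) ≤ (w / (1 + (B:ℂ) * w)).re := by
    rw [h2, ← neg_div, div_le_div_iff₀ hBr hN, h3, ← hρ]
    have hn0 := norm_nonneg w
    have h5 : 0 ≤ (r - ‖w‖) * (1 - B * ‖w‖) := by
      apply mul_nonneg (by linarith)
      rcases le_or_gt B 0 with h | h
      · nlinarith
      · nlinarith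
    have h6 : 0 ≤ (w.re + ‖w‖) * (1 + B * r) := by
      apply mul_nonneg (by linarith)
      nlinarith
    nlinarith
  have h7 : 0 < A - B := by linarith
  have h8 : (A - B) * (-(r / (1 - B * r))) ≤ (A - B) * (w / (1 + (B:ℂ) * w)).re :=
    mul_le_mul_of_nonneg_left h4 h7.le
  have h9 : (A - B) * (-(r / (1 - B * r))) = - (r * ((A - B) / (1 - B * r))) := by
    field_simp
  linarith

theorem deriv_ne_of_sub {A B : ℝ} (hB : -1 ≤ B) (hBA : B < A) (hA : A ≤ 1) {f : ℂ → ℂ}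
    (hf : ClassA f) (hsub : Subordinate (fun z => 1 + z * deriv (deriv f) z / deriv f z)
    (fun z => (1 + (A:ℂ) * z) / (1 + (B:ℂ) * z))) :
    (∀ z ∈ ball (0:ℂ) 1, deriv f z ≠ 0) ∧
    (∀ z ∈ ball (0:ℂ) 1, 1 - ‖z‖ * ((A - B) / (1 - B * ‖z‖)) ≤
      (1 + z * deriv (deriv f) z / deriv f z).re) := by
  obtain ⟨hfd, hf0, hf1⟩ := hf
  obtain ⟨ω, hω, hωm, hω0, hωeq⟩ := hsub
  have hB1 : B < 1 := lt_of_lt_of_le hBA hA
  have hωn : ∀ z ∈ ball (0:ℂ) 1, ‖ω z‖ ≤ ‖z‖ := by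
    intro z hz
    have hz' : ‖z‖ < 1 := by simpa using hz
    exact Complex.norm_le_norm_of_mapsTo_ball hω (hωm.mono_right ball_subset_closedBall) hω0 hz'
  have hωlt : ∀ z ∈ ball (0:ℂ) 1, ‖ω z‖ < 1 := by
    intro z hz
    have := hωm hz
    simpa using this
  refine ⟨?_, ?_⟩
  · have hden : ∀ z ∈ ball (0:ℂ) 1, 1 + (B:ℂ) * ω z ≠ 0 := fun z hz =>
      one_add_mul_ne hB hB1 (hωlt z hz)
    set h : ℂ → ℂ := fun z => ((A - B : ℝ):ℂ) * dslope ω 0 z / (1 + (B:ℂ) * ω z) with hh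
    have hds : DifferentiableOn ℂ (dslope ω 0) (ball 0 1) :=
      (differentiableOn_dslope (isOpen_ball.mem_nhds (by simp))).mpr hω
    have hhd : DifferentiableOn ℂ h (ball 0 1) :=
      (hds.const_mul _).div ((hω.const_mul _).const_add _) hden
    have hfd1 : DifferentiableOn ℂ (deriv f) (ball 0 1) := hfd.deriv isOpen_ball
    have hfd2 : DifferentiableOn ℂ (deriv (deriv f)) (ball 0 1) := hfd1.deriv isOpen_ball
    have hE : DifferentiableOn ℂ (fun z => deriv (deriv f) z - h z * deriv f z) (ball 0 1) :=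
      hfd2.sub (hhd.mul hfd1)
    have hEa : AnalyticOnNhd ℂ (fun z => deriv (deriv f) z - h z * deriv f z) (ball 0 1) :=
      hE.analyticOnNhd isOpen_ball
    have hnear : ∀ᶠ z in 𝓝 (0:ℂ), deriv f z ≠ 0 ∧ z ∈ ball (0:ℂ) 1 := by
      have hc : ContinuousAt (deriv f) 0 := hfd1.continuousOn.continuousAt
        (isOpen_ball.mem_nhds (by simp))
      have h1 : ∀ᶠ z in 𝓝 (0:ℂ), deriv f z ≠ 0 :=
        hc.eventually_ne (by rw [hf1]; exact one_ne_zero)
      exact h1.and (isOpen_ball.mem_nhds (by simp))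
    have hfreq : ∃ᶠ z in 𝓝[≠] (0:ℂ), (fun z => deriv (deriv f) z - h z * deriv f z) z = 0 := by
      apply Filter.Eventually.frequently
      have h2 := hnear.filter_mono (nhdsWithin_le_nhds (s := {0}ᶜ))
      filter_upwards [h2, self_mem_nhdsWithin] with z hz hz0
      have hz0' : z ≠ 0 := hz0
      obtain ⟨hz1, hz2⟩ := hz
      have h3 := hωeq z hz2
      simp only at h3
      have h4 : ω z = z * dslope ω 0 z := by
        rw [dslope_of_ne _ hz0', slope_def_field, hω0]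
        field_simp
        ring
      have h5 := hden z hz2
      simp only [hh]
      rw [div_mul_eq_mul_div, sub_eq_zero, eq_div_iff h5]
      have h6 : z * deriv (deriv f) z * (1 + (B:ℂ) * ω z)
          = ((A - B : ℝ):ℂ) * ω z * deriv f z := by
        have h7 : z * deriv (deriv f) z / deriv f z
          = (1 + (A:ℂ) * ω z) / (1 + (B:ℂ) * ω z) - 1 := by
          rw [← h3]; ring
        have h8 : (1 + (A:ℂ) * ω z) / (1 + (B:ℂ) * ω z) - 1
          = ((A - B : ℝ):ℂ) * ω z / (1 + (B:ℂ) * ω z) := by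
          rw [div_sub_one h5]
          congr 1
          push_cast
          ring
        rw [h8, div_eq_div_iff hz1 h5] at h7
        exact h7
      apply mul_left_cancel₀ hz0'
      calc z * (deriv (deriv f) z * (1 + (B:ℂ) * ω z))
          = z * deriv (deriv f) z * (1 + (B:ℂ) * ω z) := by ring
        _ = ((A - B : ℝ):ℂ) * ω z * deriv f z := h6
        _ = ((A - B : ℝ):ℂ) * (z * dslope ω 0 z) * deriv f z := by rw [← h4]
        _ = z * (((A - B : ℝ):ℂ) * dslope ω 0 z * deriv f z) := by ring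
    have hzero := hEa.eqOn_zero_of_preconnected_of_frequently_eq_zero
      (convex_ball (0:ℂ) 1).isPreconnected (by simp) hfreq
    obtain ⟨L, hL⟩ := hhd.isExactOn_ball
    set G : ℂ → ℂ := fun z => deriv f z * Complex.exp (- L z) with hG
    have hGd : ∀ z ∈ ball (0:ℂ) 1, HasDerivAt G 0 z := by
      intro z hz
      have e1 : HasDerivAt (deriv f) (deriv (deriv f) z) z :=
        (hfd1.differentiableAt (isOpen_ball.mem_nhds hz)).hasDerivAt
      have e2 := (hL z hz).neg.cexp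
      have e3 := e1.mul e2
      have e4 : deriv (deriv f) z - h z * deriv f z = 0 := hzero hz
      refine e3.congr_deriv ?_
      linear_combination (Complex.exp (-L z)) * e4
    intro z hz hcon
    have hconst : G z = G 0 := by
      apply (convex_ball (0:ℂ) 1).is_const_of_fderivWithin_eq_zero (𝕜 := ℂ)
        (fun w hw => (hGd w hw).differentiableAt.differentiableWithinAt) ?_ hz (by simp)
      intro w hw
      rw [fderivWithin_of_isOpen isOpen_ball hw]
      have := (hGd w hw).hasFDerivAt.fderiv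
      rw [this]
      ext
      simp
    have : G 0 ≠ 0 := by
      simp only [hG]
      rw [hf1, one_mul]
      exact Complex.exp_ne_zero _
    apply this
    rw [← hconst]
    simp [hG, hcon]
  · intro z hz
    have hz' : ‖z‖ < 1 := by simpa using hz
    have h1 := hωeq z hz
    simp only at h1
    rw [h1]
    exact re_bound hB hBA hA hz' (hωn z hz)

/-- the logarithmic comparison function -/
noncomputable def Lam (A B r : ℝ) : ℝ :=
  if B = 0 then A * r else -((A - B) / B) * Real.log (1 - B * r)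

theorem one_sub_pos {B r : ℝ} (hB : -1 ≤ B) (hB1 : B < 1) (hr0 : 0 ≤ r) (hr1 : r ≤ 1) :
    0 < 1 - B * r := by
  rcases le_or_gt B 0 with h | h
  · nlinarith
  · nlinarith

theorem Lam_deriv {A B : ℝ} (hB : -1 ≤ B) (hB1 : B < 1) {r : ℝ} (hr0 : 0 ≤ r)
    (hr1 : r ≤ 1) : HasDerivAt (Lam A B) ((A - B) / (1 - B * r)) r := by
  by_cases h : B = 0
  · subst h
    have : Lam A 0 = fun r => A * r := by ext r; simp [Lam]
    rw [this]
    simpa using (hasDerivAt_id r).const_mul A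
  · have : Lam A B = fun r => -((A - B) / B) * Real.log (1 - B * r) := by ext r; simp [Lam, h]
    rw [this]
    have hpos := one_sub_pos hB hB1 hr0 hr1
    have h1 : HasDerivAt (fun r : ℝ => 1 - B * r) (-B) r := by
      simpa using ((hasDerivAt_id r).const_mul B).const_sub 1
    have h2 := (h1.log hpos.ne').const_mul (-((A - B) / B))
    refine h2.congr_deriv ?_
    field_simp

theorem Lam_zero (A B : ℝ) : Lam A B 0 = 0 := by simp [Lam]

theorem exp_Lam_one {A B : ℝ} (hB1 : B < 1) : Real.exp (-Lam A B 1) = deltaAB A B := by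
  by_cases h : B = 0
  · simp [Lam, deltaAB, h]
  · simp only [Lam, deltaAB, h, if_false, mul_one]
    rw [Real.rpow_def_of_pos (by linarith)]
    congr 1
    ring

theorem deltaAB_pos {A B : ℝ} (hB1 : B < 1) : 0 < deltaAB A B := by
  rw [← exp_Lam_one hB1]
  exact Real.exp_pos _

theorem Lam_le {A B : ℝ} (hB : -1 ≤ B) (hBA : B < A) (hA : A ≤ 1) {r : ℝ} (hr0 : 0 ≤ r)
    (hr1 : r ≤ 1) : Lam A B r ≤ Lam A B 1 := by
  have hB1 : B < 1 := lt_of_lt_of_le hBA hA
  have hmono : MonotoneOn (Lam A B) (Icc 0 1) := by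
    apply monotoneOn_of_deriv_nonneg (convex_Icc 0 1)
    · intro x hx
      exact (Lam_deriv hB hB1 hx.1 hx.2).continuousAt.continuousWithinAt
    · intro x hx
      rw [interior_Icc] at hx
      exact (Lam_deriv hB hB1 hx.1.le hx.2.le).differentiableAt.differentiableWithinAt
    · intro x hx
      rw [interior_Icc] at hx
      rw [(Lam_deriv hB hB1 hx.1.le hx.2.le).deriv]
      have := one_sub_pos hB hB1 hx.1.le hx.2.le
      have : 0 < A - B := by linarith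
      positivity
  exact hmono ⟨hr0, hr1⟩ ⟨zero_le_one, le_rfl⟩ hr1

theorem H_lower {A B : ℝ} (hB : -1 ≤ B) (hBA : B < A) (hA : A ≤ 1) {f : ℂ → ℂ}
    (hf : ClassA f) (hsub : Subordinate (fun z => 1 + z * deriv (deriv f) z / deriv f z)
    (fun z => (1 + (A:ℂ) * z) / (1 + (B:ℂ) * z))) {z : ℂ} (hz : z ∈ ball (0:ℂ) 1)
    {e : ℂ} (he : ‖e‖ = 1) : deltaAB A B ≤ ‖H f z e‖ := by
  have hB1 : B < 1 := lt_of_lt_of_le hBA hA
  obtain ⟨hne, hP⟩ := deriv_ne_of_sub hB hBA hA hf hsub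
  obtain ⟨hfd, hf0, hf1⟩ := hf
  have hz' : ‖z‖ < 1 := by simpa using hz
  have h1 := key hfd hf0 hf1 hne (Λ := Lam A B) (κ := fun r => (A - B) / (1 - B * r))
    (Lam_zero A B) (fun r hr => Lam_deriv hB hB1 hr.1 hr.2.le)
    (fun r hr => by
      have := one_sub_pos hB hB1 hr.1.le hr.2.le
      have : 0 < A - B := by linarith
      positivity)
    (fun r hr => by
      have h2 := one_sub_pos hB hB1 hr.1.le hr.2.le
      have h3 : 1 - r * ((A - B) / (1 - B * r)) = (1 - A * r) / (1 - B * r) := by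
        rw [eq_div_iff h2.ne', sub_mul, mul_assoc, div_mul_cancel₀ _ h2.ne']
        ring
      rw [h3]
      apply div_nonneg _ h2.le
      have := hr.1
      have := hr.2
      nlinarith)
    (fun z hz _ => hP z hz) hz he
  have h2 := Lam_le hB hBA hA (norm_nonneg z) hz'.le
  rw [← exp_Lam_one hB1]
  exact le_trans (Real.exp_le_exp.mpr (by linarith)) h1

/-- starlikeness from non-vanishing -/
theorem starlike_of_ne {g : ℂ → ℂ} (hg : ClassA g)
    (hne : ∀ z ∈ ball (0:ℂ) 1, ∀ e : ℂ, ‖e‖ = 1 → H g z e ≠ 0) : g ∈ ClassSt := by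
  obtain ⟨hgd, hg0, hg1⟩ := hg
  have hdc : ContinuousOn (deriv g) (ball 0 1) := (hgd.deriv isOpen_ball).continuousOn
  have hmd : DifferentiableOn ℂ (dslope g 0) (ball 0 1) :=
    (differentiableOn_dslope (isOpen_ball.mem_nhds (by simp))).mpr hgd
  have hor := orient (K := ball (0:ℂ) 1) (convex_ball _ _).isPreconnected hdc
    hmd.continuousOn (by simp) hg1 (by rw [dslope_same, hg1]) hne
  have hre : ∀ z ∈ ball (0:ℂ) 1, z ≠ 0 → 0 < (z * deriv g z / g z).re := by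
    intro z hz hz0
    have h1 := hor z hz
    have h2 : dslope g 0 z = g z / z := by
      rw [dslope_of_ne _ hz0, slope_def_field, hg0]; simp
    have hm0 : dslope g 0 z ≠ 0 := by
      intro h
      rw [h] at h1
      simp at h1
    have hgz : g z ≠ 0 := by
      intro h
      rw [h2, h] at hm0
      simp at hm0
    have h3 : z * deriv g z / g z = deriv g z / dslope g 0 z := by
      rw [h2]
      field_simp
    rw [h3, Complex.div_re]
    have h4 : 0 < normSq (dslope g 0 z) := Complex.normSq_pos.mpr hm0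
    rw [← add_div]
    exact div_pos h1 h4
  exact ⟨⟨hgd, hg0, hg1⟩, injOn_of_re_pos hgd hg0 (by rw [hg1]; exact one_ne_zero) hre,
    starConvex_of_re_pos hgd hg0 hre⟩



theorem hasSum_coeff {q : ℂ → ℂ} (hqd : DifferentiableOn ℂ q (ball 0 1))
    {z : ℂ} (hz : z ∈ ball (0:ℂ) 1) : HasSum (fun n : ℕ => coeff q n * z ^ n) (q z) := by
  have h := Complex.hasSum_taylorSeries_on_ball hqd hz
  have e : (fun n : ℕ => coeff q n * z ^ n) =
      fun n : ℕ => ((n.factorial : ℂ))⁻¹ • (z - 0) ^ n • iteratedDeriv n q 0 := by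
    ext n
    simp only [coeff, smul_eq_mul, sub_zero]
    field_simp
  rw [e]
  exact h

theorem hasSum_coeff_deriv {q : ℂ → ℂ} (hqd : DifferentiableOn ℂ q (ball 0 1))
    {z : ℂ} (hz : z ∈ ball (0:ℂ) 1) :
    HasSum (fun n : ℕ => ((n:ℂ) + 1) * coeff q (n + 1) * z ^ n) (deriv q z) := by
  have h := hasSum_coeff (hqd.deriv isOpen_ball) hz
  have e : (fun n : ℕ => ((n:ℂ) + 1) * coeff q (n + 1) * z ^ n) =
      fun n : ℕ => coeff (deriv q) n * z ^ n := by
    ext n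
    simp only [coeff]
    rw [iteratedDeriv_succ', Nat.factorial_succ]
    have h1 : ((n:ℂ) + 1) ≠ 0 := by exact_mod_cast Nat.succ_ne_zero n
    have h2 : (n.factorial : ℂ) ≠ 0 := by exact_mod_cast Nat.factorial_ne_zero n
    push_cast
    field_simp
  rw [e]
  exact h

theorem H_diff_bound {f g : ℂ → ℂ} {δ : ℝ} (hf : ClassA f) (hg : g ∈ Nbhd δ f)
    {z : ℂ} (hz : z ∈ ball (0:ℂ) 1) (hz0 : z ≠ 0) {e : ℂ} (he : ‖e‖ = 1) :
    ‖H g z e - H f z e‖ ≤ δ * ‖z‖ := by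
  obtain ⟨⟨hgd, hg0, hg1⟩, hsum, hle⟩ := hg
  obtain ⟨hfd, hf0, hf1⟩ := hf
  have hz' : ‖z‖ < 1 := by simpa using hz
  have h0b : (0:ℂ) ∈ ball (0:ℂ) 1 := by simp
  set q : ℂ → ℂ := fun w => g w - f w with hq
  have hqd : DifferentiableOn ℂ q (ball 0 1) := hgd.sub hfd
  have hderq : ∀ w ∈ ball (0:ℂ) 1, deriv q w = deriv g w - deriv f w := by
    intro w hw
    have e1 := (hgd.differentiableAt (isOpen_ball.mem_nhds hw)).hasDerivAt
    have e2 := (hfd.differentiableAt (isOpen_ball.mem_nhds hw)).hasDerivAt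
    exact (e1.sub e2).deriv
  have hcq : ∀ n, coeff q n = coeff g n - coeff f n := by
    intro n
    have e1 : ContDiffAt ℂ n g 0 := (hgd.analyticAt (isOpen_ball.mem_nhds h0b)).contDiffAt
    have e2 : ContDiffAt ℂ n f 0 := (hfd.analyticAt (isOpen_ball.mem_nhds h0b)).contDiffAt
    simp only [coeff, hq]
    rw [iteratedDeriv_fun_sub e1 e2, sub_div]
  have hc0 : coeff q 0 = 0 := by
    simp [coeff, hq, hg0, hf0]
  have hc1 : coeff q 1 = 0 := by
    simp only [coeff, iteratedDeriv_one]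
    rw [hderq 0 h0b, hg1, hf1]
    simp
  have S1 := hasSum_coeff hqd hz
  have S2 := hasSum_coeff_deriv hqd hz
  have S1' : HasSum (fun n : ℕ => coeff q (n + 1) * z ^ (n + 1)) (q z) := by
    have := (hasSum_nat_add_iff' 1).mpr S1
    simpa [hc0] using this
  have S1'' : HasSum (fun n : ℕ => coeff q (n + 1) * z ^ n) (q z / z) := by
    have h := S1'.div_const z
    have e : (fun n : ℕ => coeff q (n + 1) * z ^ n) =
        fun n : ℕ => coeff q (n + 1) * z ^ (n + 1) / z := by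
      ext n
      rw [pow_succ]
      field_simp
    rw [e]
    exact h
  have hH : H g z e - H f z e = (e.re : ℂ) * deriv q z - I * (e.im : ℂ) * (q z / z) := by
    have d1 : dslope g 0 z = g z / z := by
      rw [dslope_of_ne _ hz0, slope_def_field, hg0]; simp
    have d2 : dslope f 0 z = f z / z := by
      rw [dslope_of_ne _ hz0, slope_def_field, hf0]; simp
    rw [H, H, d1, d2, hderq z hz]
    simp only [hq]
    ring
  have S3 : HasSum (fun n : ℕ => (((n:ℂ) + 1) * (e.re : ℂ) - I * (e.im : ℂ)) * coeff q (n + 1) * z ^ n)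
      (H g z e - H f z e) := by
    rw [hH]
    have h := (S2.mul_left (e.re : ℂ)).sub (S1''.mul_left (I * (e.im : ℂ)))
    have e' : (fun n : ℕ => (((n:ℂ) + 1) * (e.re : ℂ) - I * (e.im : ℂ)) * coeff q (n + 1) * z ^ n) =
        fun n : ℕ => (e.re : ℂ) * (((n:ℂ) + 1) * coeff q (n + 1) * z ^ n) -
          I * (e.im : ℂ) * (coeff q (n + 1) * z ^ n) := by
      ext n
      ring
    rw [e']
    exact h
  have S4 : HasSum (fun n : ℕ => (((n:ℂ) + 2) * (e.re : ℂ) - I * (e.im : ℂ)) * coeff q (n + 2)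
      * z ^ (n + 1)) (H g z e - H f z e) := by
    have h := (hasSum_nat_add_iff' 1).mpr S3
    have e' : (fun n : ℕ => (((n:ℂ) + 2) * (e.re : ℂ) - I * (e.im : ℂ)) * coeff q (n + 2)
      * z ^ (n + 1)) = fun n : ℕ => ((((n + 1 : ℕ):ℂ) + 1) * (e.re : ℂ) - I * (e.im : ℂ)) *
        coeff q (n + 1 + 1) * z ^ (n + 1) := by
      ext n
      push_cast
      ring_nf
    rw [e']
    simpa [hc1] using h
  have hab : e.re ^ 2 + e.im ^ 2 = 1 := by
    have : ‖e‖ ^ 2 = 1 := by rw [he]; norm_num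
    rw [← Complex.normSq_eq_norm_sq, Complex.normSq_apply] at this
    nlinarith
  have hb : ∀ n : ℕ, ‖(((n:ℂ) + 2) * (e.re : ℂ) - I * (e.im : ℂ)) * coeff q (n + 2) * z ^ (n + 1)‖
      ≤ (((n : ℝ) + 2) * ‖coeff f (n + 2) - coeff g (n + 2)‖) * ‖z‖ := by
    intro n
    rw [norm_mul, norm_mul, norm_pow, hcq, norm_sub_rev (coeff g (n + 2))]
    have h1 : ‖((n:ℂ) + 2) * (e.re : ℂ) - I * (e.im : ℂ)‖ ≤ (n : ℝ) + 2 := by
      have h2 : ‖((n:ℂ) + 2) * (e.re : ℂ) - I * (e.im : ℂ)‖ ^ 2 ≤ ((n : ℝ) + 2) ^ 2 := by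
        rw [← Complex.normSq_eq_norm_sq, Complex.normSq_apply]
        simp
        have hn : (0:ℝ) ≤ n := Nat.cast_nonneg n
        nlinarith [sq_nonneg e.im, sq_nonneg e.re, mul_nonneg hn (sq_nonneg e.im),
          mul_nonneg (mul_nonneg hn hn) (sq_nonneg e.im)]
      have hn : (0:ℝ) ≤ n := Nat.cast_nonneg n
      exact (sq_le_sq₀ (norm_nonneg _) (by linarith)).mp h2
    have h3 : ‖z‖ ^ (n + 1) ≤ ‖z‖ := by
      calc ‖z‖ ^ (n + 1) = ‖z‖ ^ n * ‖z‖ := pow_succ _ _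
        _ ≤ 1 * ‖z‖ := mul_le_mul_of_nonneg_right (pow_le_one₀ (norm_nonneg _) hz'.le) (norm_nonneg _)
        _ = ‖z‖ := one_mul _
    exact mul_le_mul (mul_le_mul_of_nonneg_right h1 (norm_nonneg _)) h3
      (pow_nonneg (norm_nonneg _) _) (mul_nonneg (by positivity) (norm_nonneg _))
  have h5 := S4.norm_le_of_bounded (hsum.hasSum.mul_right ‖z‖) hb
  exact le_trans h5 (mul_le_mul_of_nonneg_right hle (norm_nonneg _))

theorem nbhd_subset {A B : ℝ} (hB : -1 ≤ B) (hBA : B < A) (hA : A ≤ 1) {f : ℂ → ℂ}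
    (hf : ClassA f) (hsub : Subordinate (fun z => 1 + z * deriv (deriv f) z / deriv f z)
    (fun z => (1 + (A:ℂ) * z) / (1 + (B:ℂ) * z))) : Nbhd (deltaAB A B) f ⊆ ClassSt := by
  intro g hg
  have hB1 : B < 1 := lt_of_lt_of_le hBA hA
  have hδ : 0 < deltaAB A B := deltaAB_pos hB1
  refine starlike_of_ne hg.1 ?_
  intro z hz e he
  have hab : e.re ^ 2 + e.im ^ 2 = 1 := by
    have : ‖e‖ ^ 2 = 1 := by rw [he]; norm_num
    rw [← Complex.normSq_eq_norm_sq, Complex.normSq_apply] at this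
    nlinarith
  by_cases hz0 : z = 0
  · subst hz0
    intro hcon
    have h1 := congrArg Complex.re hcon
    have h2 := congrArg Complex.im hcon
    rw [H_re, dslope_same, hg.1.2.2] at h1
    rw [H_im, dslope_same, hg.1.2.2] at h2
    simp at h1 h2
    rw [h1, h2] at hab
    norm_num at hab
  · have hz' : ‖z‖ < 1 := by simpa using hz
    have h1 := H_diff_bound hf hg hz hz0 he
    have h2 := H_lower hB hBA hA hf hsub hz he
    intro hcon
    rw [hcon, zero_sub, norm_neg] at h1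
    nlinarith

/-- the exponent of the extremal derivative -/
noncomputable def Lc (A B : ℝ) (z : ℂ) : ℂ :=
  if B = 0 then (A:ℂ) * z else (((A - B) / B : ℝ):ℂ) * Complex.log (1 + (B:ℂ) * z)

theorem re_pos_one_add {B : ℝ} (hB : -1 ≤ B) (hB1 : B < 1) {w : ℂ} (hw : ‖w‖ < 1) :
    0 < (1 + (B:ℂ) * w).re := by
  simp
  have h1 := Complex.abs_re_le_norm w
  have h2 := abs_le.mp h1
  rcases le_or_gt B 0 with h | h
  · nlinarith
  · nlinarith

theorem Lc_deriv {A B : ℝ} (hB : -1 ≤ B) (hB1 : B < 1) {z : ℂ} (hz : z ∈ ball (0:ℂ) 1) :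
    HasDerivAt (Lc A B) (((A - B : ℝ):ℂ) / (1 + (B:ℂ) * z)) z := by
  have hz' : ‖z‖ < 1 := by simpa using hz
  by_cases h : B = 0
  · subst h
    have : Lc A 0 = fun z => (A:ℂ) * z := by ext z; simp [Lc]
    rw [this]
    simpa using (hasDerivAt_id z).const_mul (A:ℂ)
  · have : Lc A B = fun z => (((A - B) / B : ℝ):ℂ) * Complex.log (1 + (B:ℂ) * z) := by
      ext z; simp [Lc, h]
    rw [this]
    have h1 : HasDerivAt (fun z : ℂ => 1 + (B:ℂ) * z) (B:ℂ) z := by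
      simpa using ((hasDerivAt_id z).const_mul (B:ℂ)).const_add 1
    have hslit : 1 + (B:ℂ) * z ∈ slitPlane := Or.inl (re_pos_one_add hB hB1 hz')
    have h2 := (h1.clog hslit).const_mul (((A - B) / B : ℝ):ℂ)
    refine h2.congr_deriv ?_
    have hBC : (B:ℂ) ≠ 0 := by exact_mod_cast h
    push_cast
    rw [← mul_div_assoc, div_mul_cancel₀ _ hBC]

theorem Lc_zero (A B : ℝ) : Lc A B 0 = 0 := by simp [Lc]

theorem Lc_neg {A B : ℝ} (hB : -1 ≤ B) (hB1 : B < 1) {r : ℝ} (hr0 : -1 < r) (hr1 : r < 1) :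
    Lc A B (((-r : ℝ)):ℂ) = ((-Lam A B r : ℝ) : ℂ) := by
  by_cases h : B = 0
  · subst h
    simp [Lc, Lam]
  · simp only [Lc, Lam, h, if_false]
    have hpos : 0 < 1 - B * r := by
      rcases le_or_gt B 0 with h | h
      · nlinarith
      · nlinarith
    have e1 : (1 + (B:ℂ) * ((-r : ℝ):ℂ)) = ((1 - B * r : ℝ):ℂ) := by push_cast; ring
    rw [e1, ← Complex.ofReal_log hpos.le]
    push_cast
    ring

theorem extremal {A B : ℝ} (hB : -1 ≤ B) (hBA : B < A) (hA : A ≤ 1) :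
    ∃ f : ℂ → ℂ, ClassA f ∧ Subordinate (fun z => 1 + z * deriv (deriv f) z / deriv f z)
    (fun z => (1 + (A:ℂ) * z) / (1 + (B:ℂ) * z)) ∧
    (∀ z ∈ ball (0:ℂ) 1, HasDerivAt f (Complex.exp (Lc A B z)) z) := by
  have hB1 : B < 1 := lt_of_lt_of_le hBA hA
  have hD : DifferentiableOn ℂ (fun z => Complex.exp (Lc A B z)) (ball 0 1) := by
    intro z hz
    exact (Lc_deriv hB hB1 hz).cexp.differentiableAt.differentiableWithinAt
  obtain ⟨f, hf0, hf⟩ := hD.isExactOn_ball.with_val_at 0 0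
  have hder : ∀ z ∈ ball (0:ℂ) 1, deriv f z = Complex.exp (Lc A B z) := fun z hz => (hf z hz).deriv
  have hder2 : ∀ z ∈ ball (0:ℂ) 1, deriv (deriv f) z =
      Complex.exp (Lc A B z) * (((A - B : ℝ):ℂ) / (1 + (B:ℂ) * z)) := by
    intro z hz
    have h1 : deriv f =ᶠ[𝓝 z] fun z => Complex.exp (Lc A B z) := by
      filter_upwards [isOpen_ball.mem_nhds hz] with w hw
      exact hder w hw
    rw [h1.deriv_eq]
    exact (Lc_deriv hB hB1 hz).cexp.deriv
  refine ⟨f, ⟨?_, hf0, ?_⟩, ?_, hf⟩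
  · intro z hz
    exact (hf z hz).differentiableAt.differentiableWithinAt
  · rw [hder 0 (by simp), Lc_zero, Complex.exp_zero]
  · refine ⟨id, differentiableOn_id, mapsTo_id _, rfl, ?_⟩
    intro z hz
    have hz' : ‖z‖ < 1 := by simpa using hz
    simp only [id]
    rw [hder z hz, hder2 z hz]
    have hne := one_add_mul_ne hB hB1 hz'
    have he := Complex.exp_ne_zero (Lc A B z)
    have h3 : z * (Complex.exp (Lc A B z) * (((A - B : ℝ):ℂ) / (1 + (B:ℂ) * z))) /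
        Complex.exp (Lc A B z) = z * ((A - B : ℝ):ℂ) / (1 + (B:ℂ) * z) := by
      rw [mul_left_comm, mul_comm (Complex.exp _), mul_div_assoc, div_self he, mul_one,
        mul_div_assoc]
    rw [h3, eq_div_iff hne, add_mul, div_mul_cancel₀ _ hne]
    push_cast
    ring

theorem coeff_sq (c : ℂ) (k : ℕ) : iteratedDeriv (k + 2) (fun z : ℂ => c * z ^ 2) 0 =
    if k = 0 then 2 * c else 0 := by
  have h : (fun z : ℂ => c * z ^ 2) = c • (fun z : ℂ => z ^ 2) := by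
    ext z; simp
  have hcd : ContDiffAt ℂ ((k + 2 : ℕ) : WithTop ℕ∞) (fun z : ℂ => z ^ 2) 0 := by fun_prop
  rw [h, iteratedDeriv_const_smul hcd, iteratedDeriv_fun_pow_zero]
  by_cases hk : k = 0
  · subst hk; simp; ring
  · have : ¬ (k + 2 = 2) := by omega
    simp [hk]

theorem sharp {A B : ℝ} (hB : -1 ≤ B) (hBA : B < A) (hA : A ≤ 1) {δ : ℝ}
    (hδ : deltaAB A B < δ) : ∃ f ∈ JanowskiK A B, ¬ Nbhd δ f ⊆ ClassSt := by
  have hB1 : B < 1 := lt_of_lt_of_le hBA hA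
  have hδ0 : 0 < deltaAB A B := deltaAB_pos hB1
  have hδpos : 0 < δ := lt_trans hδ0 hδ
  obtain ⟨f, hfA, hfsub, hfd⟩ := extremal hB hBA hA
  have hfSt : f ∈ ClassSt := by
    apply nbhd_subset hB hBA hA hfA hfsub
    refine ⟨hfA, ?_, ?_⟩
    · simp [summable_zero]
    · simp [hδ0.le]
  refine ⟨f, ⟨⟨hfA, hfSt.2.1⟩, hfsub⟩, ?_⟩
  intro hcon
  set g : ℂ → ℂ := fun z => f z + ((δ / 2 : ℝ):ℂ) * z ^ 2 with hg
  have h0b : (0:ℂ) ∈ ball (0:ℂ) 1 := by simp
  have hgd : ∀ z ∈ ball (0:ℂ) 1, HasDerivAt g (Complex.exp (Lc A B z) + (δ:ℂ) * z) z := by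
    intro z hz
    have h1 := (hasDerivAt_pow 2 z).const_mul ((δ / 2 : ℝ):ℂ)
    refine ((hfd z hz).add h1).congr_deriv ?_
    push_cast
    simp
    ring
  have hgA : ClassA g := by
    refine ⟨fun z hz => (hgd z hz).differentiableAt.differentiableWithinAt, ?_, ?_⟩
    · simp [hg, hfA.2.1]
    · rw [(hgd 0 h0b).deriv, Lc_zero]
      simp
  have hcoef : ∀ k : ℕ, coeff f (k + 2) - coeff g (k + 2) = if k = 0 then -((δ / 2 : ℝ):ℂ) else 0 := by
    intro k
    have e1 : ContDiffAt ℂ ((k + 2 : ℕ) : WithTop ℕ∞) f 0 :=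
      (hfA.1.analyticAt (isOpen_ball.mem_nhds h0b)).contDiffAt
    have e2 : ContDiffAt ℂ ((k + 2 : ℕ) : WithTop ℕ∞) (fun z : ℂ => ((δ / 2 : ℝ):ℂ) * z ^ 2) 0 := by
      fun_prop
    simp only [coeff, hg]
    rw [iteratedDeriv_fun_add e1 e2, coeff_sq, add_div]
    by_cases hk : k = 0
    · subst hk
      simp
    · simp [hk]
  have hterm : ∀ k : ℕ, ((k : ℝ) + 2) * ‖coeff f (k + 2) - coeff g (k + 2)‖ =
      if k = 0 then δ else 0 := by
    intro k
    rw [hcoef]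
    by_cases hk : k = 0
    · subst hk
      simp only [if_true, norm_neg, Complex.norm_real, Real.norm_eq_abs]
      rw [abs_of_pos (by linarith)]
      push_cast
      ring
    · simp [hk]
  have hgN : g ∈ Nbhd δ f := by
    have hs : HasSum (fun k : ℕ => ((k : ℝ) + 2) * ‖coeff f (k + 2) - coeff g (k + 2)‖) δ := by
      have : (fun k : ℕ => ((k : ℝ) + 2) * ‖coeff f (k + 2) - coeff g (k + 2)‖) =
          fun k : ℕ => if k = 0 then δ else 0 := by ext k; exact hterm k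
      rw [this]
      exact hasSum_ite_eq 0 δ
    exact ⟨hgA, hs.summable, hs.tsum_eq.le⟩
  have hgSt := hcon hgN
  have hinj := hgSt.2.1
  -- real picture
  have hmem : ∀ r : ℝ, r ∈ Ioo (-1:ℝ) 1 → (((-r : ℝ)):ℂ) ∈ ball (0:ℂ) 1 := by
    intro r hr
    simp only [mem_ball, dist_zero_right, Complex.norm_real, Real.norm_eq_abs, abs_neg]
    exact abs_lt.mpr hr
  have hcurve : ∀ r : ℝ, HasDerivAt (fun t : ℝ => (((-t : ℝ)):ℂ)) (-1) r := by
    intro r
    have h1 : HasDerivAt (fun t : ℝ => -t) (-1) r := by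
      simpa using (hasDerivAt_id r).fun_neg
    have h2 := h1.ofReal_comp
    refine h2.congr_deriv ?_
    simp
  have hgr : ∀ r ∈ Ioo (-1:ℝ) 1, HasDerivAt (fun t : ℝ => g (((-t : ℝ)):ℂ))
      (((-(Real.exp (-Lam A B r) - δ * r) : ℝ)):ℂ) r := by
    intro r hr
    have h1 := hgd _ (hmem r hr)
    have h2 := HasDerivAt.comp r h1 (hcurve r)
    refine h2.congr_deriv ?_
    rw [Lc_neg hB hB1 hr.1 hr.2]
    push_cast
    ring
  have him : ∀ r ∈ Ioo (-1:ℝ) 1, (g (((-r : ℝ)):ℂ)).im = 0 := by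
    intro r hr
    have hd : ∀ t ∈ Ioo (-1:ℝ) 1, HasDerivAt (fun t : ℝ => (g (((-t : ℝ)):ℂ)).im) 0 t := by
      intro t ht
      have h1 := (Complex.imCLM.hasFDerivAt (x := g (((-t : ℝ)):ℂ))).comp_hasDerivAt t (hgr t ht)
      refine h1.congr_deriv ?_
      simp only [Complex.imCLM_apply, Complex.ofReal_im]
    have hconst : (fun t : ℝ => (g (((-t : ℝ)):ℂ)).im) r = (fun t : ℝ => (g (((-t : ℝ)):ℂ)).im) 0 := by
      apply (convex_Ioo (-1:ℝ) 1).is_const_of_fderivWithin_eq_zero (𝕜 := ℝ)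
        (fun w hw => (hd w hw).differentiableAt.differentiableWithinAt) ?_ hr (by norm_num)
      intro w hw
      rw [fderivWithin_of_isOpen isOpen_Ioo hw]
      rw [(hd w hw).hasFDerivAt.fderiv]
      ext
      simp
    simp only at hconst
    rw [hconst]
    simp [hgA.2.1]
  have hre : ∀ r ∈ Ioo (-1:ℝ) 1, HasDerivAt (fun t : ℝ => (g (((-t : ℝ)):ℂ)).re)
      (-(Real.exp (-Lam A B r) - δ * r)) r := by
    intro r hr
    have h1 := (Complex.reCLM.hasFDerivAt (x := g (((-r : ℝ)):ℂ))).comp_hasDerivAt r (hgr r hr)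
    refine h1.congr_deriv ?_
    simp only [Complex.reCLM_apply, Complex.ofReal_re]
  -- choose r1
  have hlim : ∃ r1 : ℝ, r1 ∈ Ioo (0:ℝ) 1 ∧ Real.exp (-Lam A B r1) - δ * r1 < 0 := by
    have hc : ContinuousAt (fun r : ℝ => Real.exp (-Lam A B r) - δ * r) 1 := by
      have h1 : ContinuousAt (Lam A B) 1 :=
        (Lam_deriv hB hB1 zero_le_one le_rfl).continuousAt
      exact (h1.neg.rexp).sub (continuousAt_const.mul continuousAt_id)
    have hv : Real.exp (-Lam A B 1) - δ * 1 < 0 := by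
      rw [exp_Lam_one hB1]; linarith
    have h2 := hc.eventually_lt continuousAt_const hv
    have h3 : ∀ᶠ r : ℝ in 𝓝[<] 1, Real.exp (-Lam A B r) - δ * r < 0 :=
      h2.filter_mono nhdsWithin_le_nhds
    have h4 : ∀ᶠ r : ℝ in 𝓝[<] 1, 0 < r :=
      (lt_mem_nhds (show (0:ℝ) < 1 by norm_num)).filter_mono nhdsWithin_le_nhds
    obtain ⟨r, ⟨hr1, hr2⟩, hr3⟩ := ((h3.and h4).and self_mem_nhdsWithin).exists
    exact ⟨r, ⟨hr2, hr3⟩, hr1⟩
  obtain ⟨r1, ⟨hr10, hr11⟩, hr1⟩ := hlim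
  set G : ℝ → ℝ := fun t : ℝ => (g (((-t : ℝ)):ℂ)).re with hG
  have hsubI : Icc (0:ℝ) r1 ⊆ Ioo (-1:ℝ) 1 := fun x hx => ⟨by linarith [hx.1], by linarith [hx.2]⟩
  have hGc : ContinuousOn G (Icc 0 r1) :=
    fun x hx => (hre x (hsubI hx)).continuousAt.continuousWithinAt
  have hGi : InjOn G (Icc 0 r1) := by
    intro x hx y hy hxy
    have h1 : g (((-x : ℝ)):ℂ) = g (((-y : ℝ)):ℂ) := by
      apply Complex.ext
      · exact hxy
      · rw [him x (hsubI hx), him y (hsubI hy)]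
    have h2 := hinj (hmem x (hsubI hx)) (hmem y (hsubI hy)) h1
    have h3 : (-x : ℝ) = -y := by exact_mod_cast h2
    linarith
  have huniq0 : UniqueDiffWithinAt ℝ (Icc (0:ℝ) r1) 0 :=
    uniqueDiffOn_Icc hr10 0 ⟨le_rfl, hr10.le⟩
  have huniq1 : UniqueDiffWithinAt ℝ (Icc (0:ℝ) r1) r1 :=
    uniqueDiffOn_Icc hr10 r1 ⟨hr10.le, le_rfl⟩
  have hd0 : derivWithin G (Icc 0 r1) 0 = -1 := by
    rw [(hre 0 (by norm_num)).hasDerivWithinAt.derivWithin huniq0, Lam_zero]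
    simp
  have hd1 : derivWithin G (Icc 0 r1) r1 = -(Real.exp (-Lam A B r1) - δ * r1) :=
    (hre r1 ⟨by linarith, hr11⟩).hasDerivWithinAt.derivWithin huniq1
  rcases hGc.strictMonoOn_of_injOn_Icc' hr10.le hGi with h | h
  · have := h.monotoneOn.derivWithin_nonneg (x := 0)
    rw [hd0] at this
    linarith
  · have := h.antitoneOn.derivWithin_nonpos (x := r1)
    rw [hd1] at this
    linarith

end Pool.Agent.Helper49.Janowski
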